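import Pool.Agent.T2H81.RY.Stm

set_option autoImplicit false

open Module
open scoped BigOperators

namespace Pool.Agent.T2H81.RY

theorem K2_T_KEY2 (hKEY : P_KEY) (hDIM : P_DIM) (hIND : P_INDEP) : P_KEY2 := by
  intro d n r p hp hr x S hS hA hN
  by_contra hlt
  push Not at hlt
  set u := d - finrank ℝ (WW p x S) with hu
  have : Nonempty (Fin r) := ⟨⟨0, by omega⟩⟩
  have hcod : ∀ j, d - finrank ℝ (VV p x (S j)) = d + 1 - (S j).card := by
    intro j
    have := hDIM d n p hp x (S j) (hS.circ j)
    omega
  have hsum : ∑ j, (d - finrank ℝ (VV p x (S j))) = sumE d S := by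
    unfold sumE
    exact Finset.sum_congr rfl fun j _ => hcod j
  obtain ⟨L', hL', hle, hlt'⟩ : ∃ L' : Finset (Fin n), L' ⊆ LL S ∧ L'.card ≤ u ∧
      sumE d S < L'.card + u := by
    by_cases hle : (LL S).card ≤ u
    · exact ⟨LL S, Finset.Subset.refl _, hle, hN⟩
    · push Not at hle
      obtain ⟨L', h1, h2⟩ := Finset.exists_subset_card_eq (le_of_lt hle)
      exact ⟨L', h1, by omega, by omega⟩
  obtain ⟨b, c, σ, hb, hc, hbc⟩ := hKEY d (Fin r) L' (fun j => VV p x (S j))
    (fun m => p (m : Fin n) - x) (by
      intro j T hT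
      have hT' : (T.map (Function.Embedding.subtype _)).card + (S j).card ≤ d + 1 := by
        rw [Finset.card_map]
        have := hcod j
        have h2 := (hS.circ j).1
        omega
      have hdis : Disjoint (T.map (Function.Embedding.subtype _)) (S j) := by
        rw [Finset.disjoint_left]
        intro a ha hb
        rw [Finset.mem_map] at ha
        obtain ⟨m, _, rfl⟩ := ha
        have hm := hL' m.2
        unfold LL at hm
        rw [Finset.mem_sdiff] at hm
        exact hm.2 (Finset.mem_biUnion.2 ⟨j, Finset.mem_univ _, hb⟩)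
      have h1 := hIND d n p hp x (S j) (T.map (Function.Embedding.subtype _)) (hS.circ j) hdis hT'
      let e : T → (T.map (Function.Embedding.subtype (fun m => m ∈ L'))) := fun i =>
        ⟨((i : {m // m ∈ L'}) : Fin n), Finset.mem_map.2 ⟨i, i.2, rfl⟩⟩
      have he : Function.Injective e := by
        intro a b hab
        apply Subtype.ext
        apply Subtype.ext
        have h3 := congrArg Subtype.val hab
        exact h3
      exact h1.comp e he)
    (by
      rw [hsum, Fintype.card_coe]
      exact hlt')
    (by
      rw [Fintype.card_coe]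
      exact hle)
  classical
  apply hA
  have j0 : Fin r := Classical.arbitrary _
  refine ⟨b, hb, fun m => if h : m ∈ L' then c ⟨m, h⟩ else 0, ?_,
    fun m => if h : m ∈ L' then σ ⟨m, h⟩ else j0, ?_⟩
  · intro m
    dsimp only
    split_ifs with h
    · exact hc _
    · exact le_rfl
  · intro j
    have := hbc j
    have hh : ∑ m ∈ (LL S).filter (fun m => (if h : m ∈ L' then σ ⟨m, h⟩ else j0) = j),
          (if h : m ∈ L' then c ⟨m, h⟩ else 0) • (p m - x) =
        ∑ i ∈ Finset.univ.filter (fun i : L' => σ i = j), c i • (p (i : Fin n) - x) := by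
      have h1 : ∑ m ∈ (LL S).filter (fun m => (if h : m ∈ L' then σ ⟨m, h⟩ else j0) = j),
          (if h : m ∈ L' then c ⟨m, h⟩ else 0) • (p m - x) =
          ∑ m ∈ L'.filter (fun m => (if h : m ∈ L' then σ ⟨m, h⟩ else j0) = j),
          (if h : m ∈ L' then c ⟨m, h⟩ else 0) • (p m - x) := by
        symm
        refine Finset.sum_subset (Finset.filter_subset_filter _ hL') ?_
        intro m hm hm'
        have : m ∉ L' := by
          intro h
          apply hm'
          rw [Finset.mem_filter] at hm ⊢
          exact ⟨h, hm.2⟩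
        rw [dif_neg this, zero_smul]
      rw [h1]
      symm
      refine Finset.sum_bij (fun i _ => (i : Fin n)) ?_ ?_ ?_ ?_
      · intro a ha
        rw [Finset.mem_filter] at ha ⊢
        refine ⟨a.2, ?_⟩
        rw [dif_pos a.2]
        exact ha.2
      · intro a _ b _ hab
        exact Subtype.ext hab
      · intro m hm
        rw [Finset.mem_filter] at hm
        refine ⟨⟨m, hm.1⟩, ?_, rfl⟩
        rw [Finset.mem_filter]
        refine ⟨Finset.mem_univ _, ?_⟩
        have h2 := hm.2
        rw [dif_pos hm.1] at h2
        exact h2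
      · intro a _
        rw [dif_pos a.2]
    rw [hh]
    exact this

end Pool.Agent.T2H81.RY
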