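import Pool.Agent.T2H81.RY.Stm

/-! Package CC : cone version of the colourful Caratheodory theorem (helper57) -/

set_option autoImplicit false

open Module
open scoped BigOperators

namespace Pool.Agent.T2H81.RY

namespace PkgCC

/-- conic Caratheodory -/
theorem conic {V ι : Type} [Fintype ι] [AddCommGroup V] [Module ℝ V] (v : ι → V) :
    ∀ (n : ℕ) (c : ι → ℝ), (∀ i, 0 ≤ c i) → (Finset.univ.filter fun i => c i ≠ 0).card ≤ n →
    ∃ c' : ι → ℝ, (∀ i, 0 ≤ c' i) ∧ ∑ i, c' i • v i = ∑ i, c i • v i ∧
      LinearIndependent ℝ (fun i : {i : ι // c' i ≠ 0} => v i.1) := by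
  classical
  intro n
  induction n with
  | zero =>
    intro c hc hn
    refine ⟨c, hc, rfl, ?_⟩
    rw [Nat.le_zero, Finset.card_eq_zero, Finset.filter_eq_empty_iff] at hn
    have : IsEmpty {i : ι // c i ≠ 0} := ⟨fun i => hn (Finset.mem_univ i.1) i.2⟩
    exact linearIndependent_empty_type
  | succ n ih =>
    intro c hc hn
    by_cases hli : LinearIndependent ℝ (fun i : {i : ι // c i ≠ 0} => v i.1)
    · exact ⟨c, hc, rfl, hli⟩
    · rw [Fintype.not_linearIndependent_iff] at hli
      obtain ⟨g, hg, i1, hi1⟩ := hli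
      -- extend by zero
      have hG : ∃ G : ι → ℝ, ∑ i, G i • v i = 0 ∧ (∀ i, c i = 0 → G i = 0) ∧ G i1.1 ≠ 0 := by
        refine ⟨fun i => if h : c i ≠ 0 then g ⟨i, h⟩ else 0, ?_, ?_, ?_⟩
        · rw [← hg, ← Finset.sum_subset (Finset.subset_univ (Finset.univ.filter fun i => c i ≠ 0)) (by
            intro i _ hi
            have : c i = 0 := by
              by_contra h
              exact hi (by simp [h])
            simp [this])]
          rw [Finset.sum_subtype (p := fun i => c i ≠ 0) _ (by simp)]
          apply Finset.sum_congr rfl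
          intro i _
          simp only [ne_eq, i.2, not_false_eq_true, dif_pos, Subtype.coe_eta]
        · intro i hi
          simp [hi]
        · simp [i1.2, hi1]
      obtain ⟨G, hG1, hG2, hG3⟩ := hG
      obtain ⟨G', k1, k2, i2, hi2⟩ : ∃ G' : ι → ℝ, ∑ i, G' i • v i = 0 ∧ (∀ i, c i = 0 → G' i = 0) ∧
          ∃ i, 0 < G' i := by
        rcases lt_or_gt_of_ne hG3 with h | h
        · refine ⟨fun i => - G i, ?_, ?_, i1.1, by linarith⟩
          · simp only [neg_smul, Finset.sum_neg_distrib, hG1, neg_zero]
          · intro i hi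
            simp only [hG2 i hi, neg_zero]
        · exact ⟨G, hG1, hG2, i1.1, h⟩
      obtain ⟨i0, hi0, hmin⟩ := Finset.exists_min_image (Finset.univ.filter fun i => 0 < G' i)
        (fun i => c i / G' i) ⟨i2, by simp [hi2]⟩
      rw [Finset.mem_filter] at hi0
      have hG0 := hi0.2
      set θ := c i0 / G' i0 with hθ
      have hθ0 : 0 ≤ θ := div_nonneg (hc i0) hG0.le
      have hnn : ∀ i, 0 ≤ c i - θ * G' i := by
        intro i
        rcases le_or_gt (G' i) 0 with h | h
        · have := mul_nonneg hθ0 (neg_nonneg.mpr h)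
          have := hc i
          linarith
        · have := hmin i (by simp [h])
          have h2 := mul_le_mul_of_nonneg_right this h.le
          rw [div_mul_cancel₀ _ h.ne'] at h2
          linarith
      have hz0 : c i0 - θ * G' i0 = 0 := by
        rw [hθ, div_mul_cancel₀ _ hG0.ne', sub_self]
      have hc0 : c i0 ≠ 0 := fun h => hG0.ne' (k2 i0 h)
      obtain ⟨c', h1, h2, h3⟩ := ih (fun i => c i - θ * G' i) hnn (by
        have hss : (Finset.univ.filter fun i => c i - θ * G' i ≠ 0) ⊂ (Finset.univ.filter fun i => c i ≠ 0) := by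
          rw [Finset.ssubset_iff_of_subset]
          · exact ⟨i0, by simp [hc0], by simp [hz0]⟩
          · intro i hi
            rw [Finset.mem_filter] at hi ⊢
            refine ⟨hi.1, fun h => hi.2 ?_⟩
            rw [h, k2 i h, mul_zero, sub_zero]
        have := Finset.card_lt_card hss
        omega)
      refine ⟨c', h1, ?_, h3⟩
      rw [h2]
      simp only [sub_smul, Finset.sum_sub_distrib, mul_smul, ← Finset.smul_sum, k1, smul_zero, sub_zero]

variable {E' : Type} [NormedAddCommGroup E'] [InnerProductSpace ℝ E'] [FiniteDimensional ℝ E']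
variable {ι J : Type} [Fintype ι] [Fintype J]

/-- the cone -/
def KC (v : ι → E') : Set E' := {z | ∃ c : ι → ℝ, (∀ i, 0 ≤ c i) ∧ ∑ i, c i • v i = z}

omit [FiniteDimensional ℝ E'] in
theorem KC_closed (v : ι → E') : IsClosed (KC v) := by
  classical
  have e : KC v = ⋃ T ∈ {T : Finset ι | LinearIndependent ℝ (fun i : T => v i)},
      (Fintype.linearCombination ℝ (fun i : T => v i)) '' {c | ∀ i, 0 ≤ c i} := by
    ext z
    constructor
    · rintro ⟨c, hc, rfl⟩
      obtain ⟨c', h1, h2, h3⟩ := conic v _ c hc le_rfl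
      rw [Set.mem_iUnion₂]
      refine ⟨Finset.univ.filter fun i => c' i ≠ 0, ?_, fun i => c' i, fun i => h1 i, ?_⟩
      · show LinearIndependent ℝ _
        have hinj : Function.Injective (fun i : (Finset.univ.filter fun i => c' i ≠ 0) =>
            (⟨i.1, (Finset.mem_filter.mp i.2).2⟩ : {i : ι // c' i ≠ 0})) := by
          intro i j hij
          exact Subtype.ext (by simpa using hij)
        exact h3.comp _ hinj
      · rw [Fintype.linearCombination_apply, ← h2]
        rw [Finset.sum_coe_sort (Finset.univ.filter fun i => c' i ≠ 0) (fun i => c' i • v i)]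
        apply Finset.sum_subset (Finset.subset_univ _)
        intro i _ hi
        have : c' i = 0 := by
          by_contra h
          exact hi (by simp [h])
        rw [this, zero_smul]
    · rw [Set.mem_iUnion₂]
      rintro ⟨T, -, c, hc, rfl⟩
      refine ⟨fun i => if h : i ∈ T then c ⟨i, h⟩ else 0, ?_, ?_⟩
      · intro i
        by_cases h : i ∈ T
        · simp only [h, dif_pos]
          exact hc ⟨i, h⟩
        · simp only [h, dif_neg, not_false_eq_true, le_refl]
      · rw [Fintype.linearCombination_apply]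
        rw [← Finset.sum_subset (Finset.subset_univ T) (by
          intro i _ hi
          simp only [hi, dif_neg, not_false_eq_true, zero_smul])]
        rw [← Finset.sum_coe_sort T]
        apply Finset.sum_congr rfl
        intro i _
        simp only [i.2, dif_pos, Subtype.coe_eta]
  rw [e]
  apply Set.Finite.isClosed_biUnion (Set.toFinite _)
  intro T hT
  have hinj : Function.Injective (Fintype.linearCombination ℝ (fun i : T => v i)) :=
    linearIndependent_iff_injective_fintypeLinearCombination.mp hT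
  have hce := LinearMap.isClosedEmbedding_of_injective (LinearMap.ker_eq_bot.mpr hinj)
  apply hce.isClosedMap
  have : {c : T → ℝ | ∀ i, 0 ≤ c i} = ⋂ i, {c : T → ℝ | 0 ≤ c i} := by
    ext c
    simp
  rw [this]
  exact isClosed_iInter fun i => isClosed_le continuous_const (continuous_apply i)

theorem main [Nonempty J] (C : ι → J → E') (t : E') (hcard : finrank ℝ E' ≤ Fintype.card ι)
    (ht : ∀ i, ∃ a : J → ℝ, (∀ j, 0 ≤ a j) ∧ ∑ j, a j • C i j = t) :
    ∃ (σ : ι → J) (c : ι → ℝ), (∀ i, 0 ≤ c i) ∧ ∑ i, c i • C i (σ i) = t ∧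
      LinearIndependent ℝ (fun i : {i : ι // c i ≠ 0} => C i.1 (σ i.1)) := by
  classical
  -- the union of the cones
  set K : Set E' := ⋃ σ : ι → J, KC (fun i => C i (σ i)) with hK
  have hKc : IsClosed K := isClosed_iUnion_of_finite fun σ => KC_closed _
  have hKne : K.Nonempty := by
    obtain ⟨j⟩ := ‹Nonempty J›
    exact ⟨0, Set.mem_iUnion.mpr ⟨fun _ => j, fun _ => 0, fun _ => le_refl _, by simp⟩⟩
  obtain ⟨z, hzK, hz⟩ := hKc.exists_infDist_eq_dist hKne t
  have hmin : ∀ w ∈ K, ‖t - z‖ ≤ ‖t - w‖ := by
    intro w hw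
    rw [← dist_eq_norm, ← dist_eq_norm, ← hz]
    exact Metric.infDist_le_dist_of_mem hw
  set h : E' := t - z with hh
  -- first order conditions
  have hpos : ∀ u : E', (∀ s : ℝ, 0 < s → s < 1 → z + s • u ∈ K) → inner ℝ h u ≤ 0 := by
    intro u hu
    by_contra hcon
    push Not at hcon
    have key : ∀ s : ℝ, 0 < s → s < 1 → 2 * inner ℝ h u ≤ s * ‖u‖ ^ 2 := by
      intro s hs hs1
      have h1 := hmin _ (hu s hs hs1)
      have h2 : t - (z + s • u) = h - s • u := by rw [hh]; abel
      rw [h2] at h1
      have h3 : ‖h‖ ^ 2 ≤ ‖h - s • u‖ ^ 2 := pow_le_pow_left₀ (norm_nonneg _) h1 2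
      rw [norm_sub_sq_real h (s • u), inner_smul_right, norm_smul, mul_pow, Real.norm_eq_abs, sq_abs] at h3
      have h4 : s * (2 * inner ℝ h u) ≤ s * (s * ‖u‖ ^ 2) := by nlinarith
      exact le_of_mul_le_mul_left h4 hs
    have hu2 : 0 ≤ ‖u‖ ^ 2 := by positivity
    set s : ℝ := min (1 / 2) (inner ℝ h u / (‖u‖ ^ 2 + 1)) with hs
    have hs0 : 0 < s := lt_min (by norm_num) (div_pos hcon (by positivity))
    have hs1 : s < 1 := lt_of_le_of_lt (min_le_left _ _) (by norm_num)
    have h5 := key s hs0 hs1
    have h6 : s * (‖u‖ ^ 2 + 1) ≤ inner ℝ h u := by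
      have := min_le_right (1 / 2) (inner ℝ h u / (‖u‖ ^ 2 + 1))
      rw [← hs, le_div_iff₀ (by positivity)] at this
      exact this
    nlinarith
  obtain ⟨σ, c₀, hc₀, hz₀⟩ := Set.mem_iUnion.mp hzK
  obtain ⟨c, hc, hcz, hli⟩ := conic (fun i => C i (σ i)) _ c₀ hc₀ le_rfl
  have hcz' : ∑ i, c i • C i (σ i) = z := by rw [hcz]; exact hz₀
  by_cases ht0 : h = 0
  · refine ⟨σ, c, hc, ?_, hli⟩
    rw [hcz']
    rw [hh, sub_eq_zero] at ht0
    exact ht0.symm
  exfalso
  -- general first order conditions
  have hle : ∀ (τ : ι → J), ∑ i, c i • C i (τ i) = z → ∀ i, inner ℝ h (C i (τ i)) ≤ 0 := by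
    intro τ hτ i
    apply hpos
    intro s hs _
    refine Set.mem_iUnion.mpr ⟨τ, fun k => c k + if k = i then s else 0, fun k => ?_, ?_⟩
    · simp only
      split_ifs
      · linarith [hc k]
      · linarith [hc k]
    · simp only [add_smul, Finset.sum_add_distrib, hτ, ite_smul, zero_smul, Finset.sum_ite_eq',
        Finset.mem_univ, if_true]
  have hge : ∀ i, c i ≠ 0 → 0 ≤ inner ℝ h (C i (σ i)) := by
    intro i hi
    have hci : 0 < c i := lt_of_le_of_ne (hc i) (Ne.symm hi)
    have h1 : inner ℝ h (-(c i • C i (σ i))) ≤ 0 := by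
      apply hpos
      intro s hs hs1
      refine Set.mem_iUnion.mpr ⟨σ, fun k => c k - if k = i then s * c i else 0, fun k => ?_, ?_⟩
      · simp only
        split_ifs with hk
        · subst hk
          nlinarith
        · linarith [hc k]
      · simp only [sub_smul, Finset.sum_sub_distrib, hcz', ite_smul, zero_smul, Finset.sum_ite_eq',
          Finset.mem_univ, if_true]
        rw [smul_neg, smul_smul]
        abel
    rw [inner_neg_right, inner_smul_right] at h1
    nlinarith
  have heq : ∀ i, c i ≠ 0 → inner ℝ h (C i (σ i)) = 0 := fun i hi => le_antisymm (hle σ hcz' i) (hge i hi)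
  have hhz : inner ℝ h z = 0 := by
    rw [← hcz', inner_sum]
    apply Finset.sum_eq_zero
    intro i _
    rw [inner_smul_right]
    by_cases hi : c i = 0
    · rw [hi, zero_mul]
    · rw [heq i hi, mul_zero]
  have hht : 0 < inner ℝ h t := by
    have : t = h + z := by rw [hh]; abel
    rw [this, inner_add_right, hhz, add_zero, real_inner_self_eq_norm_sq]
    have := norm_pos_iff.mpr ht0
    positivity
  -- an index outside the support
  obtain ⟨i0, hi0⟩ : ∃ i0, c i0 = 0 := by
    by_contra hcon
    push Not at hcon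
    have hli2 : LinearIndependent ℝ (fun i : ι => C i (σ i)) :=
      hli.comp (fun i : ι => (⟨i, hcon i⟩ : {i : ι // c i ≠ 0})) (fun i j hij => by simpa using hij)
    have hcard2 : Fintype.card ι = finrank ℝ E' := le_antisymm hli2.fintype_card_le_finrank hcard
    have hspan := hli2.span_eq_top_of_card_eq_finrank' hcard2
    have hmem : h ∈ Submodule.span ℝ (Set.range fun i : ι => C i (σ i)) := by
      rw [hspan]
      exact Submodule.mem_top
    have : inner ℝ h h = 0 := by
      refine Submodule.span_induction (p := fun x _ => inner ℝ h x = 0) ?_ ?_ ?_ ?_ hmem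
      · rintro _ ⟨i, rfl⟩
        exact heq i (hcon i)
      · exact inner_zero_right _
      · intro x y _ _ hx hy
        rw [inner_add_right, hx, hy, add_zero]
      · intro a x _ hx
        rw [inner_smul_right, hx, mul_zero]
    exact ht0 (inner_self_eq_zero.mp this)
  -- a better vector of this colour
  obtain ⟨a, ha, hat⟩ := ht i0
  obtain ⟨j, hj⟩ : ∃ j, 0 < inner ℝ h (C i0 j) := by
    by_contra hcon
    push Not at hcon
    rw [← hat, inner_sum] at hht
    have : ∑ j, inner ℝ h (a j • C i0 j) ≤ 0 := by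
      apply Finset.sum_nonpos
      intro j _
      rw [inner_smul_right]
      exact mul_nonpos_of_nonneg_of_nonpos (ha j) (hcon j)
    linarith
  have h7 : ∑ i, c i • C i (Function.update σ i0 j i) = z := by
    rw [← hcz']
    apply Finset.sum_congr rfl
    intro i _
    by_cases hi : i = i0
    · subst hi
      rw [hi0, zero_smul, zero_smul]
    · rw [Function.update_of_ne hi]
  have h8 := hle _ h7 i0
  rw [Function.update_self] at h8
  linarith

end PkgCC

open PkgCC in
theorem T_CC : P_CC := by
  intro F _ _ _ ι J _ _ _ C t hcard ht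
  have L : F ≃ₗ[ℝ] EuclideanSpace ℝ (Fin (finrank ℝ F)) :=
    LinearEquiv.ofFinrankEq F (EuclideanSpace ℝ (Fin (finrank ℝ F))) (by simp)
  obtain ⟨σ, c, hc, hct, hli⟩ := main (E' := EuclideanSpace ℝ (Fin (finrank ℝ F))) (fun i j => L (C i j)) (L t)
    (by rw [finrank_euclideanSpace, Fintype.card_fin]; exact hcard) (by
      intro i
      obtain ⟨a, ha, hat⟩ := ht i
      refine ⟨a, ha, ?_⟩
      rw [← hat, map_sum]
      simp only [map_smul])
  refine ⟨σ, c, hc, ?_, ?_⟩
  · apply L.injective
    rw [← hct, map_sum]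
    simp only [map_smul]
  · exact LinearIndependent.of_comp L.toLinearMap hli

end Pool.Agent.T2H81.RY
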