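import Pool.Agent.T2H81.RY.T_INDEP

/-!
# Package CIRCU
-/

set_option autoImplicit false

open Module
open scoped BigOperators

namespace Pool.Agent.T2H81.RY

theorem T_CIRCU : P_CIRCU := by
  classical
  intro d n p hp x A B hA hB hne
  obtain ⟨hAc, w, hw, hw1, hwx⟩ := hA
  obtain ⟨hBc, v, hv, hv1, hvx⟩ := hB
  by_contra hlt
  apply hne
  have hext : ∀ (C D : Finset (Fin n)) (u : Fin n → ℝ), C ⊆ D →
      ∑ i ∈ D, (if i ∈ C then u i else 0) = ∑ i ∈ C, u i := by
    intro C D u hCD
    rw [← Finset.sum_filter]
    refine Finset.sum_congr ?_ fun _ _ => rfl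
    ext i
    simp only [Finset.mem_filter]
    exact ⟨fun h => h.2, fun h => ⟨hCD h, h⟩⟩
  have hext' : ∀ (C D : Finset (Fin n)) (u : Fin n → ℝ), C ⊆ D →
      ∑ i ∈ D, (if i ∈ C then u i else 0) • p i = ∑ i ∈ C, u i • p i := by
    intro C D u hCD
    simp only [ite_smul, zero_smul]
    rw [← Finset.sum_filter]
    refine Finset.sum_congr ?_ fun _ _ => rfl
    ext i
    simp only [Finset.mem_filter]
    exact ⟨fun h => h.2, fun h => ⟨hCD h, h⟩⟩
  have hz := INDEP_aff hp (s := A ∪ B) (by omega)
    (fun i => (if i ∈ A then w i else 0) - (if i ∈ B then v i else 0))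
    (by
      rw [Finset.sum_sub_distrib, hext A _ w Finset.subset_union_left,
        hext B _ v Finset.subset_union_right, hw1, hv1, sub_self])
    (by
      simp only [sub_smul]
      rw [Finset.sum_sub_distrib, hext' A _ w Finset.subset_union_left,
        hext' B _ v Finset.subset_union_right, hwx, hvx, sub_self])
  ext i
  constructor
  · intro hi
    by_contra hiB
    have h1 := hz i (Finset.mem_union_left _ hi)
    simp only [hi, if_true, hiB, if_false, sub_zero] at h1
    exact (hw i hi).ne' h1
  · intro hi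
    by_contra hiA
    have h1 := hz i (Finset.mem_union_right _ hi)
    simp only [hi, if_true, hiA, if_false, zero_sub, neg_eq_zero] at h1
    exact (hv i hi).ne' h1

end Pool.Agent.T2H81.RY
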