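import Pool.Agent.T2H81.RY.T_INDEP

/-!
# Package DIM
-/

set_option autoImplicit false

open Module
open scoped BigOperators

namespace Pool.Agent.T2H81.RY

theorem T_DIM : P_DIM := by
  classical
  intro d n p hp x S hS
  obtain ⟨hSc, w, hw, hw1, hwx⟩ := hS
  have hne : S.Nonempty := by
    rw [Finset.nonempty_iff_ne_empty]
    rintro rfl
    simp at hw1
  obtain ⟨i0, hi0⟩ := hne
  let R := S.erase i0
  let v : R → E d := fun i => p (i : Fin n) - x
  have hsplit : ∀ f : Fin n → ℝ, ∑ i ∈ S, f i = f i0 + ∑ i ∈ R, f i := fun f =>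
    (Finset.add_sum_erase S f hi0).symm
  have hsplit' : ∀ f : Fin n → E d, ∑ i ∈ S, f i = f i0 + ∑ i ∈ R, f i := fun f =>
    (Finset.add_sum_erase S f hi0).symm
  have hli : LinearIndependent ℝ v := by
    rw [Fintype.linearIndependent_iff]
    intro g hg
    let G : Fin n → ℝ := fun i => if hi : i ∈ R then g ⟨i, hi⟩ else 0
    have hG : ∀ i : R, G i = g i := fun i => by simp [G]
    have hG0 : G i0 = 0 := by simp [G, R]
    set α : ℝ := ∑ i ∈ R, G i with hα
    have e1 : ∑ i ∈ R, G i • p i = α • x := by
      have h2 : ∑ i ∈ R, G i • (p i - x) = 0 := by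
        rw [← hg, ← Finset.sum_coe_sort R]
        exact Finset.sum_congr rfl fun i _ => by rw [hG]
      have h3 : ∑ i ∈ R, G i • (p i - x) = ∑ i ∈ R, G i • p i - α • x := by
        rw [hα, Finset.sum_smul, ← Finset.sum_sub_distrib]
        exact Finset.sum_congr rfl fun i _ => smul_sub _ _ _
      rw [h3] at h2
      exact sub_eq_zero.1 h2
    have hz := INDEP_aff hp hSc (fun i => G i - α * w i)
      (by
        rw [Finset.sum_sub_distrib, ← Finset.mul_sum, hw1, hsplit, hG0, ← hα]
        ring)
      (by
        simp only [sub_smul, mul_smul]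
        rw [Finset.sum_sub_distrib, ← Finset.smul_sum, hwx, hsplit', hG0, zero_smul, zero_add, e1,
          sub_self])
    have hα0 : α = 0 := by
      have h4 := hz i0 hi0
      simp only [hG0, zero_sub, neg_eq_zero] at h4
      exact (mul_eq_zero.1 h4).resolve_right (hw i0 hi0).ne'
    intro i
    rw [← hG i]
    have h5 := hz i (Finset.mem_of_mem_erase i.2)
    simpa [hα0] using h5
  have hspan : VV p x S = Submodule.span ℝ (Set.range v) := by
    apply le_antisymm
    · unfold VV
      rw [Submodule.span_le]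
      rintro _ ⟨i, hi, rfl⟩
      by_cases hii : i = i0
      · subst hii
        have h1 : ∑ j ∈ S, w j • (p j - x) = 0 := by
          simp only [smul_sub]
          rw [Finset.sum_sub_distrib, ← Finset.sum_smul, hw1, one_smul, hwx, sub_self]
        rw [hsplit'] at h1
        have h2 : p i - x = -(w i)⁻¹ • ∑ j ∈ R, w j • (p j - x) := by
          have h3 : w i • (p i - x) = -∑ j ∈ R, w j • (p j - x) := eq_neg_of_add_eq_zero_left h1
          have h4 : p i - x = (w i)⁻¹ • (w i • (p i - x)) := by
            rw [smul_smul, inv_mul_cancel₀ (hw i hi).ne', one_smul]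
          rw [h4, h3, smul_neg, neg_smul]
        simp only [SetLike.mem_coe]
        rw [h2]
        refine Submodule.smul_mem _ _ (Submodule.sum_mem _ fun j hj => Submodule.smul_mem _ _ ?_)
        exact Submodule.subset_span ⟨⟨j, hj⟩, rfl⟩
      · exact Submodule.subset_span ⟨⟨i, Finset.mem_erase.2 ⟨hii, hi⟩⟩, rfl⟩
    · rw [Submodule.span_le]
      rintro _ ⟨i, rfl⟩
      exact Submodule.subset_span ⟨(i : Fin n), Finset.mem_of_mem_erase i.2, rfl⟩
  rw [hspan, finrank_span_eq_card hli, Fintype.card_coe]
  exact Finset.card_erase_add_one hi0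

end Pool.Agent.T2H81.RY
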