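import Pool.Agent.T2H81.RY.Stm

set_option autoImplicit false

open Module
open scoped BigOperators

namespace Pool.Agent.T2H81.RY

theorem DIMC_mono {d n : ℕ} (p : Fin n → E d) (x : E d) {A B : Finset (Fin n)} (h : A ⊆ B) :
    VV p x A ≤ VV p x B := by
  unfold VV
  exact Submodule.span_mono (Set.image_mono (by exact_mod_cast h))

theorem DIMC_sup {d n : ℕ} (p : Fin n → E d) (x : E d) (A B : Finset (Fin n)) :
    VV p x A ⊔ VV p x B = VV p x (A ∪ B) := by
  unfold VV
  rw [Finset.coe_union, Set.image_union, Submodule.span_union]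

theorem DIMC_fr (d : ℕ) : finrank ℝ (E d) = d := by simp [E]

theorem T_DIMC : P_DIM → P_SPAN → P_CIRCU → P_DIMC := by
  intro hDIM hSPAN hCIRCU d n p hp x S T Z Z' t y U hS hTS hcard ht hyS hyT hZ hZ' hP hP' hU1 hU2 hU3
  classical
  set T' := insert y (T.erase t) with hT'
  have hT'card : T'.card = T.card := by
    rw [hT', Finset.card_insert_of_notMem (fun h => hyT (Finset.mem_of_mem_erase h)),
      Finset.card_erase_of_mem ht]
    have := Finset.card_pos.2 ⟨t, ht⟩
    omega
  have hT'S : Disjoint T' S := by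
    rw [Finset.disjoint_left]
    intro a ha haS
    rcases Finset.mem_insert.1 ha with rfl | h
    · exact hyS haS
    · exact (Finset.disjoint_left.1 hTS) (Finset.mem_of_mem_erase h) haS
  -- cardinalities
  have cP : ((S \ Z) ∪ T).card + Z.card = d + 2 := by
    rw [Finset.card_union_of_disjoint
      (Disjoint.mono_left Finset.sdiff_subset hTS.symm), Finset.card_sdiff_of_subset hZ]
    have := Finset.card_le_card hZ
    omega
  have cP' : ((S \ Z') ∪ T').card + Z'.card = d + 2 := by
    rw [Finset.card_union_of_disjoint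
      (Disjoint.mono_left Finset.sdiff_subset hT'S.symm), Finset.card_sdiff_of_subset hZ', hT'card]
    have := Finset.card_le_card hZ'
    omega
  have hZZ : Z ∩ Z' ⊆ S := Finset.inter_subset_left.trans hZ
  have hyT' : Disjoint (insert y T) S := by
    rw [Finset.disjoint_left]
    intro a ha haS
    rcases Finset.mem_insert.1 ha with rfl | h
    · exact hyS haS
    · exact (Finset.disjoint_left.1 hTS) h haS
  have hun : ((S \ Z) ∪ T) ∪ ((S \ Z') ∪ T') = (S \ (Z ∩ Z')) ∪ insert y T := by
    ext a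
    simp only [hT', Finset.mem_union, Finset.mem_sdiff, Finset.mem_insert, Finset.mem_erase,
      Finset.mem_inter]
    by_cases h1 : a = t
    · subst h1
      simp [ht]
    · tauto
  have cun : (((S \ Z) ∪ T) ∪ ((S \ Z') ∪ T')).card + (Z ∩ Z').card = d + 3 := by
    rw [hun, Finset.card_union_of_disjoint
      (Disjoint.mono_left Finset.sdiff_subset hyT'.symm), Finset.card_sdiff_of_subset hZZ,
      Finset.card_insert_of_notMem hyT]
    have := Finset.card_le_card hZZ
    omega
  have hne : ((S \ Z) ∪ T) ≠ ((S \ Z') ∪ T') := by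
    intro h
    have h1 : y ∈ ((S \ Z') ∪ T') := Finset.mem_union_right _ (Finset.mem_insert_self _ _)
    rw [← h] at h1
    rcases Finset.mem_union.1 h1 with h2 | h2
    · exact hyS (Finset.mem_sdiff.1 h2).1
    · exact hyT h2
  have h2 := hCIRCU d n p hp x _ _ hP hP' hne
  have hz1 : (Z ∩ Z').card ≤ 1 := by omega
  -- dimensions
  have dS := hDIM d n p hp x S hS
  have dP := hDIM d n p hp x _ hP
  have dP' := hDIM d n p hp x _ hP'
  have top1 : VV p x S ⊔ VV p x ((S \ Z) ∪ T) = ⊤ := by
    rw [DIMC_sup]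
    apply hSPAN d n p hp
    have h3 : S ∪ T ⊆ S ∪ ((S \ Z) ∪ T) := by
      intro a ha
      simp only [Finset.mem_union] at ha ⊢
      tauto
    have h4 := Finset.card_le_card h3
    rw [Finset.card_union_of_disjoint hTS.symm] at h4
    omega
  have top2 : (VV p x S ⊓ VV p x ((S \ Z) ∪ T)) ⊔ VV p x ((S \ Z') ∪ T') = ⊤ := by
    rw [eq_top_iff]
    have h3 : VV p x (S \ Z) ≤ VV p x S ⊓ VV p x ((S \ Z) ∪ T) :=
      le_inf (DIMC_mono p x Finset.sdiff_subset) (DIMC_mono p x Finset.subset_union_left)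
    refine le_trans ?_ (sup_le_sup_right h3 _)
    rw [DIMC_sup]
    apply le_of_eq
    symm
    apply hSPAN d n p hp
    have h4 : (S \ (Z ∩ Z')) ∪ T' ⊆ (S \ Z) ∪ ((S \ Z') ∪ T') := by
      intro a ha
      simp only [Finset.mem_union, Finset.mem_sdiff, Finset.mem_inter] at ha ⊢
      tauto
    have h5 := Finset.card_le_card h4
    rw [Finset.card_union_of_disjoint
      (Disjoint.mono_left Finset.sdiff_subset hT'S.symm), Finset.card_sdiff_of_subset hZZ,
      hT'card] at h5
    have := Finset.card_le_card hZZ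
    omega
  have f1 := Submodule.finrank_sup_add_finrank_inf_eq (VV p x S) (VV p x ((S \ Z) ∪ T))
  have f2 := Submodule.finrank_sup_add_finrank_inf_eq (VV p x S ⊓ VV p x ((S \ Z) ∪ T))
    (VV p x ((S \ Z') ∪ T'))
  rw [top1, finrank_top, DIMC_fr] at f1
  rw [top2, finrank_top, DIMC_fr] at f2
  have hU : finrank ℝ U ≤
      finrank ℝ ((VV p x S ⊓ VV p x ((S \ Z) ∪ T)) ⊓ VV p x ((S \ Z') ∪ T') :
        Submodule ℝ (E d)) :=
    Submodule.finrank_mono (le_inf (le_inf hU1 hU2) hU3)
  omega

end Pool.Agent.T2H81.RY
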