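import Pool.Agent.T2H81.RY.Stm

/-!
# Package EXCH
-/

set_option autoImplicit false

open Module
open scoped BigOperators

namespace Pool.Agent.T2H81.RY

theorem T_EXCH : P_EXCH := by
  classical
  intro d n p x S T μ hS hTS hTc hμ hV
  obtain ⟨hSc, β, hβ, hβ1, hβx⟩ := hS
  have hSne : S.Nonempty := by
    by_contra h
    rw [Finset.not_nonempty_iff_eq_empty] at h
    subst h
    simp at hβ1
  obtain ⟨γ, hγ⟩ : ∃ γ : Fin n → ℝ, ∑ z ∈ S, γ z • (p z - x) = ∑ m ∈ T, μ m • (p m - x) := by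
    obtain ⟨c, hc⟩ := (Submodule.mem_span_image_finset_iff_exists_fun ℝ).1 hV
    refine ⟨fun z => if h : z ∈ S then c ⟨z, h⟩ else 0, ?_⟩
    rw [← hc, ← Finset.sum_coe_sort S]
    refine Finset.sum_congr rfl fun z _ => ?_
    dsimp only
    rw [dif_pos z.2]
  obtain ⟨z0, hz0, hz0m⟩ := Finset.exists_max_image S (fun z => γ z / β z) hSne
  set θ : ℝ := γ z0 / β z0 with hθ
  set α : Fin n → ℝ := fun z => θ * β z - γ z with hα
  have hα0 : ∀ z ∈ S, 0 ≤ α z := by
    intro z hz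
    have h1 := hz0m z hz
    rw [div_le_iff₀ (hβ z hz)] at h1
    simp only [hα]
    linarith
  have hβ0 : ∑ z ∈ S, β z • (p z - x) = 0 := by
    simp only [smul_sub, Finset.sum_sub_distrib]
    rw [hβx, ← Finset.sum_smul, hβ1, one_smul, sub_self]
  have hrel : ∑ m ∈ T, μ m • (p m - x) + ∑ z ∈ S, α z • (p z - x) = 0 := by
    have h1 : ∑ z ∈ S, α z • (p z - x) = θ • ∑ z ∈ S, β z • (p z - x) -
        ∑ z ∈ S, γ z • (p z - x) := by
      rw [Finset.smul_sum, ← Finset.sum_sub_distrib]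
      refine Finset.sum_congr rfl fun z _ => ?_
      simp only [hα, sub_smul, mul_smul]
    rw [h1, hβ0, hγ, smul_zero]
    abel
  set Z : Finset (Fin n) := S.filter (fun z => α z = 0) with hZ
  have hz0Z : z0 ∈ Z := by
    rw [hZ, Finset.mem_filter]
    refine ⟨hz0, ?_⟩
    simp only [hα, hθ]
    rw [div_mul_cancel₀ _ (hβ z0 hz0).ne', sub_self]
  have hTne : T.Nonempty := Finset.card_pos.1 (by omega)
  set A : ℝ := ∑ m ∈ T, μ m + ∑ z ∈ S, α z with hA
  have hApos : 0 < A := by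
    have h1 : 0 < ∑ m ∈ T, μ m := Finset.sum_pos hμ hTne
    have h2 : 0 ≤ ∑ z ∈ S, α z := Finset.sum_nonneg hα0
    linarith
  have hdj : Disjoint (S \ Z) T := hTS.symm.mono_left Finset.sdiff_subset
  have hsum : ∀ (M : Type) [AddCommMonoid M] (g : Fin n → M), (∀ z ∈ Z, g z = 0) →
      ∑ z ∈ S \ Z, g z = ∑ z ∈ S, g z := by
    intro M _ g hg
    refine Finset.sum_subset Finset.sdiff_subset fun z hz hz' => hg z ?_
    by_contra h
    exact hz' (Finset.mem_sdiff.2 ⟨hz, h⟩)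
  have hZα : ∀ z ∈ Z, α z = 0 := fun z hz => (Finset.mem_filter.1 hz).2
  set w : Fin n → ℝ := fun m => (if m ∈ T then μ m else α m) / A with hw
  have hwT : ∀ m ∈ T, w m = A⁻¹ * μ m := by
    intro m hm
    simp only [hw, if_pos hm]
    rw [div_eq_inv_mul]
  have hwS : ∀ m ∈ S \ Z, w m = A⁻¹ * α m := by
    intro m hm
    have : m ∉ T := Finset.disjoint_left.1 hdj hm
    simp only [hw, if_neg this]
    rw [div_eq_inv_mul]
  refine ⟨Z, Finset.filter_subset _ _, ⟨z0, hz0Z⟩, ?_, w, ?_, ?_, ?_⟩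
  · have hZS : Z ⊆ S := Finset.filter_subset _ _
    have h1 : 0 < Z.card := Finset.card_pos.2 ⟨z0, hz0Z⟩
    have h2 : Z.card ≤ S.card := Finset.card_le_card hZS
    have h3 := Finset.card_sdiff_of_subset hZS
    rw [Finset.card_union_of_disjoint hdj]
    omega
  · intro m hm
    rcases Finset.mem_union.1 hm with h | h
    · rw [hwS m h]
      obtain ⟨hmS, hmZ⟩ := Finset.mem_sdiff.1 h
      have h1 : α m ≠ 0 := fun h0 => hmZ (Finset.mem_filter.2 ⟨hmS, h0⟩)
      exact mul_pos (inv_pos.2 hApos) (lt_of_le_of_ne (hα0 m hmS) h1.symm)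
    · rw [hwT m h]
      exact mul_pos (inv_pos.2 hApos) (hμ m h)
  · rw [Finset.sum_union hdj, Finset.sum_congr rfl hwS, Finset.sum_congr rfl hwT,
      ← Finset.mul_sum, ← Finset.mul_sum, hsum ℝ α hZα, ← mul_add, add_comm, ← hA,
      inv_mul_cancel₀ hApos.ne']
  · rw [Finset.sum_union hdj]
    have h1 : ∑ i ∈ S \ Z, w i • p i = A⁻¹ • ∑ z ∈ S, α z • p z := by
      rw [← hsum (E d) (fun z => α z • p z) (fun z hz => by simp only [hZα z hz, zero_smul]),
        Finset.smul_sum]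
      refine Finset.sum_congr rfl fun z hz => ?_
      rw [hwS z hz, mul_smul]
    have h2 : ∑ i ∈ T, w i • p i = A⁻¹ • ∑ m ∈ T, μ m • p m := by
      rw [Finset.smul_sum]
      refine Finset.sum_congr rfl fun z hz => ?_
      rw [hwT z hz, mul_smul]
    rw [h1, h2, ← smul_add]
    have h3 : ∑ z ∈ S, α z • p z + ∑ m ∈ T, μ m • p m = A • x := by
      simp only [smul_sub, Finset.sum_sub_distrib] at hrel
      rw [← Finset.sum_smul, ← Finset.sum_smul] at hrel
      rw [hA, add_smul]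
      have h4 : ∑ z ∈ S, α z • p z + ∑ m ∈ T, μ m • p m -
          ((∑ m ∈ T, μ m) • x + (∑ z ∈ S, α z) • x) = 0 := by
        rw [← hrel]
        abel
      exact sub_eq_zero.1 h4
    rw [h3, smul_smul, inv_mul_cancel₀ hApos.ne', one_smul]

end Pool.Agent.T2H81.RY
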