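import Pool.Agent.T2H81.RY.LibGen

/-! # Package FIN -/

set_option autoImplicit false

open Module Filter Topology
open scoped BigOperators

namespace Pool.Agent.T2H81.RY

open LibGen in
theorem T_FIN : P_FIN := by
  classical
  intro d n r k p hGP hr x S hS hk
  let b := Module.finBasis ℝ (WW p x S)
  let w : Fin k → E d := fun j => (b (Fin.castLE hk j) : E d)
  have hwW : ∀ j, w j ∈ WW p x S := fun j => (b (Fin.castLE hk j)).2
  have hwli : LinearIndependent ℝ w := by
    have h1 := b.linearIndependent.map' (WW p x S).subtype (Submodule.ker_subtype _)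
    exact h1.comp _ (Fin.castLE_injective hk)
  have h1 : ∀ᶠ t in 𝓝[>] (0 : ℝ), ∀ j : Fin k, ∀ i : Fin r, Circ p (x + t • w j) (S i) := by
    rw [Filter.eventually_all]
    intro j
    rw [Filter.eventually_all]
    intro i
    refine circ_move (hS.circ i) ?_
    exact (iInf_le (fun i => VV p x (S i)) i) (hwW j)
  obtain ⟨t, ht, ht0⟩ := (h1.and self_mem_nhdsWithin).exists
  have ht0' : t ≠ 0 := ne_of_gt ht0
  let q : Fin (k + 1) → E d := Fin.cons x (fun j => x + t • w j)
  refine ⟨fun m => if h : ∃ i, m ∈ S i then h.choose else ⟨0, by omega⟩, q, ?_, ?_⟩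
  · rw [affineIndependent_iff_linearIndependent_vsub ℝ q 0]
    rw [← linearIndependent_equiv (finSuccAboveEquiv (0 : Fin (k + 1)))]
    have h2 : ((fun i : {x // x ≠ (0 : Fin (k + 1))} => q i -ᵥ q 0) ∘
        (finSuccAboveEquiv (0 : Fin (k + 1)))) = (fun j => (Units.mk0 t ht0') • w j) := by
      funext j
      simp only [Function.comp_apply, finSuccAboveEquiv_apply, Fin.zero_succAbove, q, Fin.cons_succ,
        Fin.cons_zero, vsub_eq_sub, add_sub_cancel_left]
      rfl
    rw [h2]
    exact hwli.units_smul (fun _ => Units.mk0 t ht0')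
  · intro j i
    have hsub : (S i : Set (Fin n)) ⊆ {m : Fin n | (if h : ∃ i, m ∈ S i then h.choose else ⟨0, by omega⟩) = i} := by
      intro m hm
      have hex : ∃ i, m ∈ S i := ⟨i, hm⟩
      show (if h : ∃ i, m ∈ S i then h.choose else ⟨0, by omega⟩) = i
      rw [dif_pos hex]
      by_contra hne
      exact (Finset.disjoint_left.1 (hS.disj _ _ hne)) hex.choose_spec hm
    refine convexHull_mono (Set.image_mono hsub) ?_
    refine Fin.cases ?_ (fun j => ?_) j
    · exact circ_mem_convexHull (hS.circ i)
    · exact circ_mem_convexHull (ht j i)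

end Pool.Agent.T2H81.RY
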