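import Pool.Agent.T2H81.RY.LibGen

/-! # Package GEN -/

set_option autoImplicit false

open Module Filter Topology
open scoped BigOperators

namespace Pool.Agent.T2H81.RY

namespace GenPkg

theorem carath {d n : ℕ} (p : Fin n → E d) (A : Finset (Fin n)) (x : E d)
    (hx : x ∈ convexHull ℝ (p '' (A : Set (Fin n)))) : ∃ S ⊆ A, Circ p x S := by
  classical
  obtain ⟨ι, _, z, w, hz, haff, hw, hw1, hw2⟩ := eq_pos_convex_span_of_mem_convexHull hx
  have hch : ∀ k : ι, ∃ m : Fin n, m ∈ A ∧ p m = z k := by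
    intro k
    obtain ⟨m, hm, hm2⟩ := hz ⟨k, rfl⟩
    exact ⟨m, hm, hm2⟩
  choose idx hidx hidx2 using hch
  have hinj : Function.Injective idx := by
    intro a b hab
    apply haff.injective
    rw [← hidx2 a, ← hidx2 b, hab]
  refine ⟨Finset.univ.image idx, ?_, ?_, Function.extend idx w 0, ?_, ?_, ?_⟩
  · intro m hm
    rw [Finset.mem_image] at hm
    obtain ⟨k, -, rfl⟩ := hm
    exact hidx k
  · rw [Finset.card_image_of_injective _ hinj, Finset.card_univ]
    have := haff.card_le_finrank_succ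
    refine this.trans ?_
    have h2 : finrank ℝ (vectorSpan ℝ (Set.range z)) ≤ finrank ℝ (E d) := Submodule.finrank_le _
    have h3 : finrank ℝ (E d) = d := finrank_euclideanSpace_fin
    omega
  · intro i hi
    rw [Finset.mem_image] at hi
    obtain ⟨k, -, rfl⟩ := hi
    rw [hinj.extend_apply]
    exact hw k
  · rw [Finset.sum_image (fun a _ b _ h => hinj h)]
    simp only [hinj.extend_apply]
    exact hw1
  · rw [Finset.sum_image (fun a _ b _ h => hinj h)]
    simp only [hinj.extend_apply, hidx2]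
    exact hw2

end GenPkg

open LibGen GenPkg in
theorem T_GEN : P_GEN := by
  classical
  intro d n r p hGP A hA m q hq hqA
  set H : Submodule ℝ (E d) := vectorSpan ℝ (Set.range q) with hH
  have hHm : finrank ℝ H = m := hq.finrank_vectorSpan (by simp)
  obtain ⟨v, hvH, hv⟩ := exists_generic p H
  -- the centroid
  obtain ⟨a, ha, hav⟩ : ∃ a : Fin (m + 1) → ℝ, ∑ i, a i = 0 ∧ ∑ i, a i • q i = v := by
    have h1 := (mem_vectorSpan_iff_eq_weightedVSub (k := ℝ) (p := q) (v := v)).1 hvH
    obtain ⟨s, w, hw, hwv⟩ := h1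
    refine ⟨fun i => if i ∈ s then w i else 0, ?_, ?_⟩
    · rw [Finset.sum_ite_mem, Finset.univ_inter]
      exact hw
    · rw [Finset.weightedVSub_eq_linear_combination s (p := q) hw] at hwv
      rw [hwv]
      simp only [ite_smul, zero_smul]
      rw [Finset.sum_ite_mem, Finset.univ_inter]
  set g : E d := ∑ i, (1 / ((m : ℝ) + 1)) • q i with hg
  have hm0 : (0 : ℝ) < (m : ℝ) + 1 := by positivity
  have hmove : ∀ᶠ t in 𝓝[>] (0 : ℝ), ∀ i, g + t • v ∈ convexHull ℝ (p '' (A i : Set (Fin n))) := by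
    have h1 : ∀ᶠ t in 𝓝[>] (0 : ℝ), ∀ i : Fin (m + 1), 0 < 1 / ((m : ℝ) + 1) + t * a i := by
      rw [Filter.eventually_all]
      intro i
      exact eventually_pos _ _ (by positivity)
    filter_upwards [h1] with t ht i
    have h2 : g + t • v = ∑ j, (1 / ((m : ℝ) + 1) + t * a j) • q j := by
      simp only [add_smul, mul_smul]
      rw [Finset.sum_add_distrib, ← Finset.smul_sum (r := t), hav]
    rw [h2]
    refine (convex_convexHull ℝ _).sum_mem (fun j _ => (ht j).le) ?_ (fun j _ => hqA j i)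
    rw [Finset.sum_add_distrib, ← Finset.mul_sum, ha, Finset.sum_const, Finset.card_univ,
      Fintype.card_fin, nsmul_eq_mul]
    push_cast
    field_simp
    ring
  have h2 : ∀ᶠ t in 𝓝[>] (0 : ℝ), ∀ P : Finset (Fin n),
      ¬ H ≤ vectorSpan ℝ (p '' (P : Set (Fin n))) →
        g + t • v ∉ affineSpan ℝ (p '' (P : Set (Fin n))) := by
    rw [Filter.eventually_all]
    intro P
    by_cases hP : H ≤ vectorSpan ℝ (p '' (P : Set (Fin n)))
    · exact Eventually.of_forall fun t h => absurd hP h
    · exact (eventually_notMem p g v P (hv P hP)).mono fun t ht _ => ht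
  obtain ⟨t, ht1, ht2⟩ := (hmove.and h2).exists
  have hch := fun i => carath p (A i) (g + t • v) (ht1 i)
  choose S hSA hSc using hch
  refine ⟨g + t • v, S, ⟨fun i j hij => ?_, hSc⟩, hSA, ?_⟩
  · exact Finset.disjoint_of_subset_left (hSA i) (Finset.disjoint_of_subset_right (hSA j) (hA i j hij))
  · rw [← hHm]
    refine Submodule.finrank_mono ?_
    unfold WW
    refine le_iInf fun j => ?_
    rw [vv_eq (circ_mem_affineSpan (hSc j))]
    by_contra hcon
    exact ht2 _ hcon (circ_mem_affineSpan (hSc j))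

end Pool.Agent.T2H81.RY
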