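import Pool.Agent.T2H81.RY.LibGen

/-! # Package GEN2 -/

set_option autoImplicit false

open Module Filter Topology
open scoped BigOperators

namespace Pool.Agent.T2H81.RY

open LibGen in
theorem T_GEN2 : P_GEN2 := by
  classical
  intro d n r p hGP x S hS
  obtain ⟨v, hvW, hv⟩ := exists_generic p (WW p x S)
  have h1 : ∀ᶠ t in 𝓝[>] (0 : ℝ), ∀ j, Circ p (x + t • v) (S j) := by
    rw [Filter.eventually_all]
    intro j
    refine circ_move (hS.circ j) ?_
    exact (iInf_le (fun j => VV p x (S j)) j) hvW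
  have h2 : ∀ᶠ t in 𝓝[>] (0 : ℝ), ∀ P : Finset (Fin n),
      ¬ WW p x S ≤ vectorSpan ℝ (p '' (P : Set (Fin n))) →
        x + t • v ∉ affineSpan ℝ (p '' (P : Set (Fin n))) := by
    rw [Filter.eventually_all]
    intro P
    by_cases hP : WW p x S ≤ vectorSpan ℝ (p '' (P : Set (Fin n)))
    · exact Eventually.of_forall fun t h => absurd hP h
    · exact (eventually_notMem p x v P (hv P hP)).mono fun t ht _ => ht
  obtain ⟨t, ht1, ht2⟩ := (h1.and h2).exists
  have hW : WW p (x + t • v) S = WW p x S := by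
    unfold WW
    congr 1
    funext j
    rw [vv_eq (circ_mem_affineSpan (ht1 j)), vv_eq (circ_mem_affineSpan (hS.circ j))]
  refine ⟨x + t • v, ⟨hS.disj, ht1⟩, hW, fun P hP => ?_⟩
  rw [hW, vv_eq (circ_mem_affineSpan hP)]
  by_contra hcon
  exact ht2 P hcon (circ_mem_affineSpan hP)

end Pool.Agent.T2H81.RY
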