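import Pool.Agent.T2H81.RY.Stm

set_option autoImplicit false

open Module Filter Topology
open scoped BigOperators

namespace Pool.Agent.T2H81.RY

theorem IMP_small {d n : ℕ} {p : Fin n → E d} {x : E d} {S T : Finset (Fin n)} (hS : Circ p x S)
    (hST : Disjoint S T) {v : E d} (hv : v ∈ VV p x S) {c : Fin n → ℝ} (hc : ∀ m, 0 ≤ c m) :
    ∀ᶠ t : ℝ in 𝓝[>] (0 : ℝ), x + t • (v + ∑ m ∈ T, c m • (p m - x)) ∈
      convexHull ℝ (p '' ((S ∪ T : Finset (Fin n)) : Set (Fin n))) := by
  classical
  obtain ⟨-, w, hw0, hw1, hwx⟩ := hS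
  obtain ⟨a, ha⟩ : ∃ a : Fin n → ℝ, ∑ i ∈ S, a i • (p i - x) = v := by
    unfold VV at hv
    obtain ⟨a, ha⟩ := (Submodule.mem_span_image_finset_iff_exists_fun ℝ).1 hv
    refine ⟨fun i => if h : i ∈ S then a ⟨i, h⟩ else 0, ?_⟩
    rw [← ha, ← Finset.sum_coe_sort S]
    refine Finset.sum_congr rfl fun i _ => ?_
    simp only
    rw [dif_pos i.2]
  set K : ℝ := ∑ i ∈ S, a i + ∑ m ∈ T, c m with hK
  have hpos : ∀ᶠ t : ℝ in 𝓝[>] (0 : ℝ), ∀ i ∈ S, 0 ≤ w i + t * (a i - K * w i) := by
    rw [Filter.eventually_all_finset]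
    intro i hi
    have h1 : Tendsto (fun t : ℝ => w i + t * (a i - K * w i)) (𝓝[>] 0)
        (𝓝 (w i + 0 * (a i - K * w i))) := by
      apply Tendsto.mono_left _ nhdsWithin_le_nhds
      apply Continuous.tendsto
      fun_prop
    rw [zero_mul, add_zero] at h1
    exact (h1.eventually (lt_mem_nhds (hw0 i hi))).mono fun t ht => le_of_lt ht
  filter_upwards [hpos, self_mem_nhdsWithin] with t ht ht0
  have ht0' : 0 < t := ht0
  set g : Fin n → ℝ := fun m => if m ∈ S then w m + t * (a m - K * w m) else t * c m with hg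
  have key : x + t • (v + ∑ m ∈ T, c m • (p m - x)) = ∑ m ∈ S ∪ T, g m • p m := by
    rw [Finset.sum_union hST]
    have h1 : ∑ m ∈ S, g m • p m = ∑ m ∈ S, (w m + t * (a m - K * w m)) • p m :=
      Finset.sum_congr rfl fun m hm => by rw [hg]; simp only; rw [if_pos hm]
    have h2 : ∑ m ∈ T, g m • p m = ∑ m ∈ T, (t * c m) • p m :=
      Finset.sum_congr rfl fun m hm => by
        rw [hg]; simp only; rw [if_neg (fun h => (Finset.disjoint_left.1 hST) h hm)]
    rw [h1, h2, ← ha]
    have h3 : ∑ m ∈ S, (w m + t * (a m - K * w m)) • p m =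
        x + t • ∑ m ∈ S, a m • p m - (t * K) • x := by
      have : ∀ m ∈ S, (w m + t * (a m - K * w m)) • p m =
          w m • p m + t • (a m • p m) - (t * K) • (w m • p m) := by
        intro m _
        module
      rw [Finset.sum_congr rfl this, Finset.sum_sub_distrib, Finset.sum_add_distrib,
        ← Finset.smul_sum, ← Finset.smul_sum, hwx]
    have h4 : ∑ m ∈ T, (t * c m) • p m = t • ∑ m ∈ T, c m • p m := by
      rw [Finset.smul_sum]
      exact Finset.sum_congr rfl fun m _ => by module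
    have h5 : ∑ m ∈ S, a m • (p m - x) = ∑ m ∈ S, a m • p m - (∑ m ∈ S, a m) • x := by
      rw [Finset.sum_smul, ← Finset.sum_sub_distrib]
      exact Finset.sum_congr rfl fun m _ => by module
    have h6 : ∑ m ∈ T, c m • (p m - x) = ∑ m ∈ T, c m • p m - (∑ m ∈ T, c m) • x := by
      rw [Finset.sum_smul, ← Finset.sum_sub_distrib]
      exact Finset.sum_congr rfl fun m _ => by module
    rw [h3, h4, h5, h6, hK]
    module
  rw [key]
  refine (convex_convexHull ℝ _).sum_mem (fun m hm => ?_) ?_ (fun m hm => ?_)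
  · rw [hg]
    simp only
    split_ifs with h
    · exact ht m h
    · exact mul_nonneg ht0'.le (hc m)
  · rw [Finset.sum_union hST]
    have h1 : ∑ m ∈ S, g m = ∑ m ∈ S, (w m + t * (a m - K * w m)) :=
      Finset.sum_congr rfl fun m hm => by rw [hg]; simp only; rw [if_pos hm]
    have h2 : ∑ m ∈ T, g m = ∑ m ∈ T, (t * c m) :=
      Finset.sum_congr rfl fun m hm => by
        rw [hg]; simp only; rw [if_neg (fun h => (Finset.disjoint_left.1 hST) h hm)]
    rw [h1, h2, Finset.sum_add_distrib, ← Finset.mul_sum, Finset.sum_sub_distrib, ← Finset.mul_sum,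
      ← Finset.mul_sum, hw1, hK]
    ring
  · exact subset_convexHull ℝ _ (Set.mem_image_of_mem _ hm)

theorem IMP_affine {d D : ℕ} (x : E d) (t : ℝ) (ht : t ≠ 0) (u : Fin D → E d)
    (hu : LinearIndependent ℝ u) :
    AffineIndependent ℝ (Fin.cons x (fun i => x + t • u i) : Fin (D + 1) → E d) := by
  rw [affineIndependent_iff_linearIndependent_vsub ℝ _ (0 : Fin (D + 1))]
  rw [← linearIndependent_equiv (finSuccAboveEquiv (0 : Fin (D + 1)))]
  have h : ((fun i : {y : Fin (D + 1) // y ≠ 0} =>
      ((Fin.cons x (fun i => x + t • u i) : Fin (D + 1) → E d) i -ᵥ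
        (Fin.cons x (fun i => x + t • u i) : Fin (D + 1) → E d) 0 : E d)) ∘
      (finSuccAboveEquiv (0 : Fin (D + 1)))) = fun i => (Units.mk0 t ht) • u i := by
    funext i
    simp [finSuccAboveEquiv, Units.smul_def]
  rw [h]
  exact (LinearIndependent.units_smul hu (fun _ => Units.mk0 t ht))

theorem T_IMP : P_GEN → P_IMP := by
  intro hGEN d n r p hp x S hS hA
  classical
  obtain ⟨b, hb, c, hc, σ, hσ⟩ := hA
  set W := WW p x S with hW
  set D := finrank ℝ W with hD
  have hWj : ∀ j, W ≤ VV p x (S j) := fun j => iInf_le _ j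
  set T : Fin r → Finset (Fin n) := fun j => (LL S).filter (fun m => σ m = j) with hT
  have hST : ∀ i j, Disjoint (S i) (T j) := by
    intro i j
    rw [Finset.disjoint_left]
    intro m hm hm'
    have h1 := (Finset.mem_filter.1 hm').1
    unfold LL at h1
    exact (Finset.mem_sdiff.1 h1).2 (Finset.mem_biUnion.2 ⟨i, Finset.mem_univ _, hm⟩)
  set A : Fin r → Finset (Fin n) := fun j => S j ∪ T j with hAdef
  have hAd : ∀ i j, i ≠ j → Disjoint (A i) (A j) := by
    intro i j hij
    rw [hAdef]
    simp only [Finset.disjoint_union_left, Finset.disjoint_union_right]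
    refine ⟨⟨hS.disj i j hij, (hST j i).symm⟩, hST i j, ?_⟩
    rw [Finset.disjoint_left]
    intro m hm hm'
    exact hij ((Finset.mem_filter.1 hm).2.symm.trans (Finset.mem_filter.1 hm').2)
  -- the vectors
  let B := finBasis ℝ W
  set w : Fin D → E d := fun k => (B k : E d) with hw
  have hwli : LinearIndependent ℝ w := by
    have := B.linearIndependent
    exact this.map' W.subtype (Submodule.ker_subtype W)
  have hwW : ∀ k, w k ∈ W := fun k => (B k).2
  have hspan : Submodule.span ℝ (Set.range w) ≤ W := by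
    rw [Submodule.span_le]
    rintro _ ⟨k, rfl⟩
    exact hwW k
  set u : Fin (D + 1) → E d := Fin.cons b w with hu
  have huli : LinearIndependent ℝ u := by
    rw [hu]
    exact linearIndependent_finCons.2 ⟨hwli, fun h => hb (hspan h)⟩
  -- all the points are in the hulls for small `t`
  have hsm1 : ∀ᶠ t : ℝ in 𝓝[>] (0 : ℝ), ∀ j : Fin r, ∀ k : Fin (D + 1),
      x + t • u k ∈ convexHull ℝ (p '' ((A j : Finset (Fin n)) : Set (Fin n))) := by
    rw [Filter.eventually_all]
    intro j
    rw [Filter.eventually_all]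
    intro k
    refine Fin.cases ?_ (fun k => ?_) k
    · have h1 := IMP_small (hS.circ j) (hST j j) (hσ j) hc
      filter_upwards [h1] with t ht
      rw [sub_add_cancel] at ht
      rw [hu]
      exact ht
    · have h1 := IMP_small (hS.circ j) (hST j j) (hWj j (hwW k)) (c := fun _ => 0) (fun _ => le_rfl)
      filter_upwards [h1] with t ht
      simp only [zero_smul, Finset.sum_const_zero, add_zero] at ht
      rw [hu]
      exact ht
  obtain ⟨t, ht, ht0⟩ := (hsm1.and self_mem_nhdsWithin).exists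
  have ht0' : (0 : ℝ) < t := ht0
  have hx : ∀ j, x ∈ convexHull ℝ (p '' ((A j : Finset (Fin n)) : Set (Fin n))) := by
    intro j
    obtain ⟨-, ω, hω0, hω1, hωx⟩ := hS.circ j
    rw [← hωx]
    refine (convex_convexHull ℝ _).sum_mem (fun m hm => (hω0 m hm).le) hω1 (fun m hm => ?_)
    exact subset_convexHull ℝ _ (Set.mem_image_of_mem _
      (by exact_mod_cast Finset.mem_union_left _ hm))
  obtain ⟨x', S', h1, -, h3⟩ := hGEN d n r p hp A hAd (D + 1)
    (Fin.cons x (fun i => x + t • u i)) (IMP_affine x t ht0'.ne' u huli) (by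
      intro j i
      refine Fin.cases ?_ (fun k => ?_) j
      · exact hx i
      · exact ht i k)
  exact ⟨x', S', h1, by omega⟩

end Pool.Agent.T2H81.RY
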