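import Pool.Agent.T2H81.RY.Stm

/-!
# Packages INDEP, CIRCU, DIM, SPAN: common lemma and package INDEP
-/

set_option autoImplicit false

open Module
open scoped BigOperators

namespace Pool.Agent.T2H81.RY

theorem INDEP_aff {d n : ℕ} {p : Fin n → E d} (h : GP p) {s : Finset (Fin n)} (hs : s.card ≤ d + 1)
    (a : Fin n → ℝ) (h0 : ∑ i ∈ s, a i = 0) (h1 : ∑ i ∈ s, a i • p i = 0) : ∀ i ∈ s, a i = 0 := by
  have h2 := (affineIndependent_iff (k := ℝ) (p := fun i : s => p (i : Fin n))).1 (h s hs)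
    Finset.univ (fun i => a (i : Fin n))
    (by rw [← h0]; exact Finset.sum_coe_sort s a)
    (by rw [← h1]; exact Finset.sum_coe_sort s (fun i => a i • p i))
  intro i hi
  exact h2 ⟨i, hi⟩ (Finset.mem_univ _)

theorem INDEP_mem {d n : ℕ} {p : Fin n → E d} {x v : E d} {S : Finset (Fin n)} (h : v ∈ VV p x S) :
    ∃ b : Fin n → ℝ, ∑ i ∈ S, b i • (p i - x) = v := by
  classical
  unfold VV at h
  obtain ⟨c, hc⟩ := (Submodule.mem_span_image_finset_iff_exists_fun ℝ).1 h
  refine ⟨fun i => if hi : i ∈ S then c ⟨i, hi⟩ else 0, ?_⟩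
  rw [← hc, ← Finset.sum_coe_sort S]
  exact Finset.sum_congr rfl fun i _ => by simp

theorem T_INDEP : P_INDEP := by
  classical
  intro d n p hp x S T hS hdis hcard
  obtain ⟨hSc, w, hw, hw1, hwx⟩ := hS
  rw [Fintype.linearIndependent_iff]
  intro g hg
  have h1 : ∑ i : T, g i • (p (i : Fin n) - x) ∈ VV p x S := by
    rw [← Submodule.ker_mkQ (VV p x S), LinearMap.mem_ker, map_sum]
    simpa only [map_smul] using hg
  obtain ⟨b, hb⟩ := INDEP_mem h1
  -- extend g
  let G : Fin n → ℝ := fun i => if hi : i ∈ T then g ⟨i, hi⟩ else 0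
  have hG : ∀ i : T, G i = g i := fun i => by simp [G]
  have hsum : ∑ i ∈ T, G i • (p i - x) = ∑ i ∈ S, b i • (p i - x) := by
    rw [hb, ← Finset.sum_coe_sort T]
    exact Finset.sum_congr rfl fun i _ => by rw [hG]
  set α : ℝ := ∑ i ∈ T, G i with hα
  set β : ℝ := ∑ i ∈ S, b i with hβ
  have e1 : ∑ i ∈ T, G i • p i - α • x = ∑ i ∈ S, b i • p i - β • x := by
    have h2 : ∑ i ∈ T, G i • (p i - x) = ∑ i ∈ T, G i • p i - α • x := by
      rw [hα, Finset.sum_smul, ← Finset.sum_sub_distrib]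
      exact Finset.sum_congr rfl fun i _ => smul_sub _ _ _
    have h3 : ∑ i ∈ S, b i • (p i - x) = ∑ i ∈ S, b i • p i - β • x := by
      rw [hβ, Finset.sum_smul, ← Finset.sum_sub_distrib]
      exact Finset.sum_congr rfl fun i _ => smul_sub _ _ _
    rw [← h2, ← h3, hsum]
  let a : Fin n → ℝ := fun i => if i ∈ T then G i else -b i - (α - β) * w i
  have haT : ∀ i ∈ T, a i = G i := fun i hi => by simp [a, hi]
  have haS : ∀ i ∈ S, a i = -b i - (α - β) * w i := fun i hi => by
    have : i ∉ T := fun h => (Finset.disjoint_left.1 hdis h hi)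
    simp [a, this]
  have hz := INDEP_aff hp (s := T ∪ S) (by
      rw [Finset.card_union_of_disjoint hdis]; exact hcard) a
    (by
      rw [Finset.sum_union hdis, Finset.sum_congr rfl haT, Finset.sum_congr rfl haS,
        Finset.sum_sub_distrib, Finset.sum_neg_distrib, ← Finset.mul_sum, hw1, ← hα, ← hβ]
      ring)
    (by
      have h5 : ∑ i ∈ T, a i • p i = ∑ i ∈ T, G i • p i :=
        Finset.sum_congr rfl fun i hi => by rw [haT i hi]
      have h6 : ∑ i ∈ S, a i • p i = -∑ i ∈ S, b i • p i - (α - β) • x := by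
        rw [← hwx, Finset.smul_sum, ← Finset.sum_neg_distrib, ← Finset.sum_sub_distrib]
        exact Finset.sum_congr rfl fun i hi => by rw [haS i hi, sub_smul, neg_smul, mul_smul]
      have h4 : ∑ i ∈ T, G i • p i = ∑ i ∈ S, b i • p i - β • x + α • x := by
        rw [← e1]; abel
      rw [Finset.sum_union hdis, h5, h6, h4, sub_smul]
      abel)
  intro i
  rw [← hG i, ← haT i i.2]
  exact hz i (Finset.mem_union_left _ i.2)

end Pool.Agent.T2H81.RY
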