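import Pool.Agent.T2H81.RY.Stm

set_option autoImplicit false

open Module Filter Topology
open scoped BigOperators

namespace Pool.Agent.T2H81.RY

namespace KEYaux

lemma eventually_notMem {S : Set ℝ} (hS : S.Finite) : ∀ᶠ τ in 𝓝[≠] (0 : ℝ), τ ∉ S := by
  have h1 : (S \ {0}).Finite := hS.subset Set.sdiff_subset
  have h2 : (S \ {0})ᶜ ∈ 𝓝 (0 : ℝ) := h1.isClosed.compl_mem_nhds (by simp)
  filter_upwards [mem_nhdsWithin_of_mem_nhds h2, self_mem_nhdsWithin] with τ h3 h4 h5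
  exact h3 ⟨h5, h4⟩

/-- a perturbation on which a functional vanishing on `W` is constant -/
lemma exists_fun {d : ℕ} {ι : Type} [Fintype ι] (W : Submodule ℝ (E d)) (y : ι → E d)
    (h : Fintype.card ι ≤ d - finrank ℝ W) :
    ∃ z : ι → E d, ∀ᶠ τ in 𝓝[≠] (0 : ℝ), ∃ lam : E d →ₗ[ℝ] ℝ,
      W ≤ LinearMap.ker lam ∧ ∀ i, lam (y i + τ • z i) = 1 := by
  classical
  have hq : finrank ℝ (ι → ℝ) ≤ finrank ℝ (E d ⧸ W) := by
    rw [Module.finrank_fintype_fun_eq_card]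
    have := Submodule.finrank_quotient_add_finrank W
    rw [finrank_euclideanSpace_fin] at this
    omega
  obtain ⟨f, hf⟩ := finrank_le_iff_exists_linearMap.mp hq
  obtain ⟨g, hg⟩ := LinearMap.exists_leftInverse_of_injective f (LinearMap.ker_eq_bot.mpr hf)
  set P : E d →ₗ[ℝ] (ι → ℝ) := g ∘ₗ W.mkQ with hP
  have hPs : Function.Surjective P := by
    intro c
    obtain ⟨v, hv⟩ := W.mkQ_surjective (f c)
    exact ⟨v, by rw [hP, LinearMap.comp_apply, hv]; exact LinearMap.congr_fun hg c⟩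
  choose z hz using fun i : ι => hPs (Pi.single i 1)
  refine ⟨z, ?_⟩
  set A : Module.End ℝ (ι → ℝ) := Fintype.linearCombination ℝ (fun i => P (y i)) with hA
  have hfin : {τ : ℝ | A.HasEigenvalue (-τ)}.Finite :=
    A.finite_hasEigenvalue.preimage (neg_injective.injOn)
  filter_upwards [eventually_notMem hfin] with τ hτ
  set B : Module.End ℝ (ι → ℝ) := A + τ • LinearMap.id with hB
  have hBinj : LinearMap.ker B = ⊥ := by
    rw [LinearMap.ker_eq_bot']
    intro c hc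
    by_contra hc0
    apply hτ
    show A.HasEigenvalue (-τ)
    apply Module.End.hasEigenvalue_of_hasEigenvector (x := c)
    refine ⟨?_, hc0⟩
    rw [Module.End.mem_eigenspace_iff]
    have h1 : A c + τ • c = 0 := hc
    rw [neg_smul]
    exact eq_neg_of_add_eq_zero_left h1
  obtain ⟨C, hC⟩ := LinearMap.exists_leftInverse_of_injective B hBinj
  refine ⟨(∑ i, LinearMap.proj i) ∘ₗ C ∘ₗ P, ?_, ?_⟩
  · intro w hw
    rw [LinearMap.mem_ker]
    have h1 : P w = 0 := by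
      rw [hP, LinearMap.comp_apply, Submodule.mkQ_apply, (Submodule.Quotient.mk_eq_zero W).mpr hw,
        map_zero]
    simp [h1]
  · intro i
    have h1 : P (y i + τ • z i) = B (Pi.single i 1) := by
      rw [map_add, map_smul, hz, hB, LinearMap.add_apply, LinearMap.smul_apply,
        LinearMap.id_apply, hA, Fintype.linearCombination_apply_single, one_smul]
    have h2 : C (B (Pi.single i 1)) = Pi.single i 1 := LinearMap.congr_fun hC _
    rw [LinearMap.comp_apply, LinearMap.comp_apply, h1, h2, LinearMap.sum_apply]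
    simp

lemma step (hCA : P_CA) {d : ℕ} {J ι : Type} [Fintype J] [DecidableEq J] [Nonempty J] [Fintype ι]
    (V : J → Submodule ℝ (E d)) (y : ι → E d) (lam : E d →ₗ[ℝ] ℝ)
    (hlam : (⨅ j, V j) ≤ LinearMap.ker lam) (hy : ∀ i, lam (y i) = 1)
    (hc : ∑ j, (d - finrank ℝ (V j)) <
      Fintype.card ι + (d - finrank ℝ (⨅ j, V j : Submodule ℝ (E d)))) :
    ∃ (b : E d) (c : ι → ℝ) (σ : ι → J), b ∈ (⨅ j, V j : Submodule ℝ (E d))ᗮ ∧
      (∀ i, 0 ≤ c i) ∧ ‖b‖ + ∑ i, c i = 1 ∧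
      (∀ j, b - ∑ i ∈ Finset.univ.filter (fun i => σ i = j), c i • y i ∈ V j) ∧
      (∀ j, (Finset.univ.filter (fun i => σ i = j ∧ c i ≠ 0)).card ≤ d - finrank ℝ (V j)) := by
  classical
  obtain ⟨b, c, σ, h0, h1, h2, h3⟩ := hCA d J ι V y lam hlam (fun i => by rw [hy]; norm_num) hc
  obtain ⟨w, hw, b', hb', rfl⟩ :=
    (⨅ j, V j : Submodule ℝ (E d)).exists_add_mem_mem_orthogonal b
  have hlb : lam b' = 1 := by
    rw [map_add, LinearMap.mem_ker.mp (hlam hw), zero_add] at h1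
    exact h1
  have hb0 : b' ≠ 0 := by
    rintro rfl
    rw [map_zero] at hlb
    norm_num at hlb
  have hsum0 : 0 ≤ ∑ i, c i := Finset.sum_nonneg fun i _ => h0 i
  set N : ℝ := ‖b'‖ + ∑ i, c i with hN
  have hNpos : 0 < N := by
    have := norm_pos_iff.mpr hb0
    linarith
  refine ⟨N⁻¹ • b', fun i => N⁻¹ * c i, σ, Submodule.smul_mem _ _ hb', ?_, ?_, ?_, ?_⟩
  · intro i
    exact mul_nonneg (inv_nonneg.mpr hNpos.le) (h0 i)
  · rw [norm_smul, Real.norm_of_nonneg (inv_nonneg.mpr hNpos.le), ← Finset.mul_sum, ← mul_add,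
      ← hN, inv_mul_cancel₀ hNpos.ne']
  · intro j
    have h4 : b' - ∑ i ∈ Finset.univ.filter (fun i => σ i = j), c i • y i ∈ V j := by
      have h5 := (V j).sub_mem (h2 j) (Submodule.mem_iInf V |>.mp hw j)
      convert h5 using 1
      abel
    have h6 := (V j).smul_mem N⁻¹ h4
    convert h6 using 1
    rw [smul_sub, Finset.smul_sum]
    congr 1
    refine Finset.sum_congr rfl fun i _ => ?_
    rw [smul_smul]
  · intro j
    have h4 := (h3 j).fintype_card_le_finrank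
    have h5 := Submodule.finrank_quotient_add_finrank (V j)
    rw [finrank_euclideanSpace_fin] at h5
    have h6 : (Finset.univ.filter (fun i => σ i = j ∧ N⁻¹ * c i ≠ 0)).card =
        Fintype.card {i : ι // σ i = j ∧ c i ≠ 0} := by
      rw [Fintype.card_subtype]
      congr 1
      ext i
      simp [hNpos.ne']
    rw [h6]
    omega

end KEYaux

open KEYaux in
theorem T_KEY (hCA : P_CA) : P_KEY := by
  classical
  intro d J ι _ _ _ _ V y hind hsum hcard
  set W : Submodule ℝ (E d) := ⨅ j, V j with hW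
  obtain ⟨z, hz⟩ := exists_fun W y hcard
  have hstep : ∀ᶠ τ in 𝓝[≠] (0 : ℝ), ∃ (b : E d) (c : ι → ℝ) (σ : ι → J), b ∈ Wᗮ ∧
      (∀ i, 0 ≤ c i) ∧ ‖b‖ + ∑ i, c i = 1 ∧
      (∀ j, b - ∑ i ∈ Finset.univ.filter (fun i => σ i = j), c i • (y i + τ • z i) ∈ V j) ∧
      (∀ j, (Finset.univ.filter (fun i => σ i = j ∧ c i ≠ 0)).card ≤ d - finrank ℝ (V j)) := by
    filter_upwards [hz] with τ hτ
    obtain ⟨lam, h1, h2⟩ := hτ
    exact step hCA V (fun i => y i + τ • z i) lam h1 h2 hsum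
  obtain ⟨𝒰, hU⟩ := Ultrafilter.exists_le (𝓝[≠] (0 : ℝ))
  have hstep' := hU hstep
  rw [Filter.eventually_iff] at hstep
  have hex : ∀ τ : ℝ, ∃ (b : E d) (c : ι → ℝ) (σ : ι → J),
      (∃ (b : E d) (c : ι → ℝ) (σ : ι → J), b ∈ Wᗮ ∧
      (∀ i, 0 ≤ c i) ∧ ‖b‖ + ∑ i, c i = 1 ∧
      (∀ j, b - ∑ i ∈ Finset.univ.filter (fun i => σ i = j), c i • (y i + τ • z i) ∈ V j) ∧
      (∀ j, (Finset.univ.filter (fun i => σ i = j ∧ c i ≠ 0)).card ≤ d - finrank ℝ (V j))) →
      b ∈ Wᗮ ∧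
      (∀ i, 0 ≤ c i) ∧ ‖b‖ + ∑ i, c i = 1 ∧
      (∀ j, b - ∑ i ∈ Finset.univ.filter (fun i => σ i = j), c i • (y i + τ • z i) ∈ V j) ∧
      (∀ j, (Finset.univ.filter (fun i => σ i = j ∧ c i ≠ 0)).card ≤ d - finrank ℝ (V j)) := by
    intro τ
    by_cases h : ∃ (b : E d) (c : ι → ℝ) (σ : ι → J), b ∈ Wᗮ ∧
      (∀ i, 0 ≤ c i) ∧ ‖b‖ + ∑ i, c i = 1 ∧
      (∀ j, b - ∑ i ∈ Finset.univ.filter (fun i => σ i = j), c i • (y i + τ • z i) ∈ V j) ∧
      (∀ j, (Finset.univ.filter (fun i => σ i = j ∧ c i ≠ 0)).card ≤ d - finrank ℝ (V j))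
    · obtain ⟨b, c, σ, h1⟩ := h
      exact ⟨b, c, σ, fun _ => h1⟩
    · exact ⟨0, 0, fun _ => Classical.arbitrary J, fun h' => absurd h' h⟩
  choose b c σ hbcs using hex
  have hall : ∀ᶠ τ in (𝒰 : Filter ℝ), b τ ∈ Wᗮ ∧
      (∀ i, 0 ≤ c τ i) ∧ ‖b τ‖ + ∑ i, c τ i = 1 ∧
      (∀ j, b τ - ∑ i ∈ Finset.univ.filter (fun i => σ τ i = j),
        c τ i • (y i + τ • z i) ∈ V j) ∧
      (∀ j, (Finset.univ.filter (fun i => σ τ i = j ∧ c τ i ≠ 0)).card ≤
        d - finrank ℝ (V j)) := by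
    filter_upwards [hstep'] with τ hτ
    exact hbcs τ hτ
  -- the assignment is constant along the ultrafilter
  obtain ⟨σ₀, hσ₀⟩ : ∃ s : ι → J, ∀ᶠ τ in (𝒰 : Filter ℝ), σ τ = s := by
    by_contra hcon
    have h1 : ∀ s : ι → J, ∀ᶠ τ in (𝒰 : Filter ℝ), σ τ ≠ s := by
      intro s
      exact Ultrafilter.eventually_not.mpr fun h => hcon ⟨s, h⟩
    have h2 : ∀ᶠ τ in (𝒰 : Filter ℝ), ∀ s, σ τ ≠ s := Filter.eventually_all.mpr h1
    obtain ⟨τ, hτ⟩ := h2.exists
    exact hτ (σ τ) rfl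
  -- limits
  have hK : IsCompact ((Metric.closedBall (0 : E d) 1) ×ˢ (Set.Icc (0 : ι → ℝ) 1)) :=
    (isCompact_closedBall _ _).prod isCompact_Icc
  have hmem : ∀ᶠ τ in (𝒰 : Filter ℝ),
      (b τ, c τ) ∈ (Metric.closedBall (0 : E d) 1) ×ˢ (Set.Icc (0 : ι → ℝ) 1) := by
    filter_upwards [hall] with τ hτ
    obtain ⟨-, h0, h1, -, -⟩ := hτ
    have hs : 0 ≤ ∑ i, c τ i := Finset.sum_nonneg fun i _ => h0 i
    have hn := norm_nonneg (b τ)
    refine ⟨?_, ?_, ?_⟩
    · rw [mem_closedBall_zero_iff]; linarith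
    · intro i; exact h0 i
    · intro i
      have := Finset.single_le_sum (fun i _ => h0 i) (Finset.mem_univ i)
      show c τ i ≤ 1
      linarith
  obtain ⟨⟨b₀, c₀⟩, -, hlim⟩ := hK.ultrafilter_le_nhds' (𝒰.map fun τ => (b τ, c τ)) hmem
  rw [Ultrafilter.coe_map] at hlim
  have hlim' : Tendsto (fun τ => (b τ, c τ)) (𝒰 : Filter ℝ) (𝓝 (b₀, c₀)) := hlim
  have hb : Tendsto b (𝒰 : Filter ℝ) (𝓝 b₀) :=
    (continuous_fst.tendsto (b₀, c₀)).comp hlim'
  have hc : Tendsto c (𝒰 : Filter ℝ) (𝓝 c₀) :=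
    (continuous_snd.tendsto (b₀, c₀)).comp hlim'
  have hci : ∀ i, Tendsto (fun τ => c τ i) (𝒰 : Filter ℝ) (𝓝 (c₀ i)) :=
    fun i => ((continuous_apply i).tendsto c₀).comp hc
  have hτ0 : Tendsto (fun τ : ℝ => τ) (𝒰 : Filter ℝ) (𝓝 0) :=
    hU.trans nhdsWithin_le_nhds
  have hc0 : ∀ i, 0 ≤ c₀ i := fun i =>
    ge_of_tendsto (hci i) (by filter_upwards [hall] with τ hτ using hτ.2.1 i)
  have hb0 : b₀ ∈ Wᗮ :=
    (Submodule.closed_of_finiteDimensional Wᗮ).mem_of_tendsto hb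
      (by filter_upwards [hall] with τ hτ using hτ.1)
  have hnorm : ‖b₀‖ + ∑ i, c₀ i = 1 := by
    have h1 : Tendsto (fun τ => ‖b τ‖ + ∑ i, c τ i) (𝒰 : Filter ℝ) (𝓝 (‖b₀‖ + ∑ i, c₀ i)) :=
      hb.norm.add (tendsto_finsetSum _ fun i _ => hci i)
    have h2 : Tendsto (fun τ => ‖b τ‖ + ∑ i, c τ i) (𝒰 : Filter ℝ) (𝓝 1) :=
      tendsto_const_nhds.congr' (by filter_upwards [hall] with τ hτ using hτ.2.2.1.symm)
    exact tendsto_nhds_unique h1 h2
  have hrel : ∀ j, b₀ - ∑ i ∈ Finset.univ.filter (fun i => σ₀ i = j), c₀ i • y i ∈ V j := by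
    intro j
    have h1 : Tendsto (fun τ => b τ - ∑ i ∈ Finset.univ.filter (fun i => σ₀ i = j),
        c τ i • (y i + τ • z i)) (𝒰 : Filter ℝ)
        (𝓝 (b₀ - ∑ i ∈ Finset.univ.filter (fun i => σ₀ i = j), c₀ i • (y i + (0 : ℝ) • z i))) := by
      refine hb.sub (tendsto_finsetSum _ fun i _ => (hci i).smul ?_)
      exact tendsto_const_nhds.add (hτ0.smul tendsto_const_nhds)
    simp only [zero_smul, add_zero] at h1
    refine (Submodule.closed_of_finiteDimensional (V j)).mem_of_tendsto h1 ?_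
    filter_upwards [hall, hσ₀] with τ hτ hs
    have := hτ.2.2.2.1 j
    rw [hs] at this
    exact this
  have hsupp : ∀ j, (Finset.univ.filter (fun i => σ₀ i = j ∧ c₀ i ≠ 0)).card ≤
      d - finrank ℝ (V j) := by
    intro j
    have h1 : ∀ᶠ τ in (𝒰 : Filter ℝ), ∀ i, c₀ i ≠ 0 → c τ i ≠ 0 := by
      rw [Filter.eventually_all]
      intro i
      by_cases hi : c₀ i = 0
      · exact Filter.Eventually.of_forall fun τ h => absurd hi h
      · filter_upwards [(hci i).eventually_ne hi] with τ hτ _ using hτ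
    obtain ⟨τ, hτ, hs, hne⟩ := (hall.and (hσ₀.and h1)).exists
    refine (Finset.card_le_card ?_).trans (hτ.2.2.2.2 j)
    intro i hi
    rw [Finset.mem_filter] at hi ⊢
    rw [hs]
    exact ⟨hi.1, hi.2.1, hne i hi.2.2⟩
  have hbne : b₀ ≠ 0 := by
    intro hb00
    have h1 : ∀ i, c₀ i = 0 := by
      intro i
      by_contra hi
      set j := σ₀ i with hj
      set T : Finset ι := Finset.univ.filter (fun i => σ₀ i = j ∧ c₀ i ≠ 0) with hT
      have hli := hind j T (hsupp j)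
      have hrj := hrel j
      rw [hb00, zero_sub, Submodule.neg_mem_iff] at hrj
      have h2 : ∑ i : T, c₀ (i : ι) • (V j).mkQ (y (i : ι)) = 0 := by
        have h3 : ∑ i ∈ T, c₀ i • y i =
            ∑ i ∈ Finset.univ.filter (fun i => σ₀ i = j), c₀ i • y i := by
          apply Finset.sum_subset
          · intro i hi
            rw [hT, Finset.mem_filter] at hi
            rw [Finset.mem_filter]
            exact ⟨hi.1, hi.2.1⟩
          · intro i hi hiT
            rw [Finset.mem_filter] at hi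
            rw [hT, Finset.mem_filter] at hiT
            have : c₀ i = 0 := by
              by_contra h
              exact hiT ⟨hi.1, hi.2, h⟩
            rw [this, zero_smul]
        rw [← h3] at hrj
        have h4 : (V j).mkQ (∑ i ∈ T, c₀ i • y i) = 0 := by
          rw [Submodule.mkQ_apply]
          exact (Submodule.Quotient.mk_eq_zero (V j)).mpr hrj
        rw [map_sum, ← Finset.sum_coe_sort] at h4
        rw [← h4]
        refine Finset.sum_congr rfl fun i _ => ?_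
        rw [map_smul]
      have h5 := (Fintype.linearIndependent_iff.mp hli) (fun i => c₀ (i : ι)) h2
        ⟨i, by rw [hT, Finset.mem_filter]; exact ⟨Finset.mem_univ _, hj.symm, hi⟩⟩
      exact hi h5
    rw [hb00, norm_zero, zero_add, Finset.sum_eq_zero fun i _ => h1 i] at hnorm
    norm_num at hnorm
  refine ⟨b₀, c₀, σ₀, ?_, hc0, hrel⟩
  intro hbW
  apply hbne
  have h1 := Submodule.inner_right_of_mem_orthogonal hbW hb0
  exact inner_self_eq_zero.mp h1

end Pool.Agent.T2H81.RY
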