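import Pool.Agent.T2H81.RY.Stm

/-!
# Package POS: a positive relation modulo the span of a part
-/

set_option autoImplicit false

open Module
open scoped BigOperators

namespace Pool.Agent.T2H81.RY

/-- Case A from a linear functional -/
theorem pos_caseA (hCA : P_CA) (hDIM : P_DIM) {d n r : ℕ} {p : Fin n → E d} (hp : GP p)
    (hr : 1 ≤ r) {x : E d} {S : Fin r → Finset (Fin n)} (hS : State p x S)
    (hn : sumE d S < (LL S).card + (d - finrank ℝ (WW p x S))) (lam : E d →ₗ[ℝ] ℝ)
    (hlam : WW p x S ≤ LinearMap.ker lam) (hpos : ∀ m ∈ LL S, 0 < lam (p m - x)) :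
    CaseA p x S := by
  classical
  have : Nonempty (Fin r) := ⟨⟨0, hr⟩⟩
  have hsum : ∑ j, (d - finrank ℝ (VV p x (S j))) = sumE d S := by
    unfold sumE
    refine Finset.sum_congr rfl fun j _ => ?_
    have := hDIM d n p hp x (S j) (hS.circ j)
    omega
  obtain ⟨b, c, σ, hc, hb, hmem, -⟩ := hCA d (Fin r) (LL S) (fun j => VV p x (S j))
    (fun m : LL S => p (m : Fin n) - x) lam hlam (fun m => hpos m m.2) (by
      rw [hsum, Fintype.card_coe]
      exact hn)
  refine ⟨b, fun hbW => ?_, fun m => if h : m ∈ LL S then c ⟨m, h⟩ else 0, fun m => ?_,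
    fun m => if h : m ∈ LL S then σ ⟨m, h⟩ else ⟨0, hr⟩, fun j => ?_⟩
  · have := hlam hbW
    rw [LinearMap.mem_ker, hb] at this
    exact one_ne_zero this
  · show (0 : ℝ) ≤ if h : m ∈ LL S then c ⟨m, h⟩ else 0
    split_ifs with h
    · exact hc _
    · exact le_rfl
  · have h1 := hmem j
    rw [Finset.sum_filter] at h1 ⊢
    rw [← Finset.sum_coe_sort (LL S)]
    convert h1 using 3 with i hi
    have hi2 : (i : Fin n) ∈ LL S := i.2
    simp only [dif_pos hi2]

theorem T_POS : P_CA → P_DIM → P_INDEP → P_POS := by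
  intro hCA hDIM hINDEP d n r p hp hr x S hS hA hn i hi
  classical
  set V := VV p x (S i) with hV
  set P : E d →L[ℝ] Vᗮ := Vᗮ.orthogonalProjectionOnto with hP
  have hP0 : ∀ v, P v = 0 ↔ v ∈ V := by
    intro v
    rw [hP, Submodule.orthogonalProjectionOnto_eq_zero_iff, Submodule.orthogonal_orthogonal]
  have hdim := hDIM d n p hp x (S i) (hS.circ i)
  rw [← hV] at hdim
  have hcodim : finrank ℝ Vᗮ + (S i).card = d + 1 := by
    have h1 := Submodule.finrank_add_finrank_orthogonal V
    rw [finrank_euclideanSpace_fin] at h1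
    omega
  -- zero is in the convex hull
  have h0 : (0 : Vᗮ) ∈ convexHull ℝ ((fun m => P (p m - x)) '' (LL S : Set (Fin n))) := by
    by_contra hcon
    obtain ⟨f, u, hu, hf⟩ := geometric_hahn_banach_point_closed
      (convex_convexHull ℝ ((fun m => P (p m - x)) '' (LL S : Set (Fin n))))
      (((LL S).finite_toSet.image _).isClosed_convexHull ℝ) hcon
    rw [map_zero] at hu
    refine hA (pos_caseA hCA hDIM hp hr hS hn ((f : Vᗮ →ₗ[ℝ] ℝ).comp (P : E d →ₗ[ℝ] Vᗮ)) ?_ ?_)
    · intro v hv
      rw [LinearMap.mem_ker]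
      have h1 : v ∈ V := (Submodule.mem_iInf _).1 hv i
      show f (P v) = 0
      rw [(hP0 v).2 h1, map_zero]
    · intro m hm
      have h1 : P (p m - x) ∈ convexHull ℝ ((fun m => P (p m - x)) '' (LL S : Set (Fin n))) :=
        subset_convexHull ℝ _ ⟨m, hm, rfl⟩
      exact hu.trans (hf _ h1)
  obtain ⟨ι, _, z, w, hz, haff, hw, hw1, hwz⟩ := eq_pos_convex_span_of_mem_convexHull h0
  have hex : ∀ k, ∃ m, m ∈ LL S ∧ P (p m - x) = z k := by
    intro k
    obtain ⟨m, hm, hmz⟩ := hz ⟨k, rfl⟩
    exact ⟨m, hm, hmz⟩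
  choose g hg hgz using hex
  have hginj : Function.Injective g := by
    intro k l hkl
    apply haff.injective
    rw [← hgz k, ← hgz l, hkl]
  have hgsum : ∑ k, w k • (p (g k) - x) ∈ V := by
    rw [← hP0, map_sum]
    rw [← hwz]
    refine Finset.sum_congr rfl fun k _ => ?_
    rw [map_smul, hgz]
  have hcard : (Finset.univ.image g).card = Fintype.card ι := by
    rw [Finset.card_image_of_injective _ hginj, Finset.card_univ]
  have hμ : ∀ k, Function.extend g w 0 (g k) = w k := fun k => hginj.extend_apply w 0 k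
  have hTsum : ∑ m ∈ Finset.univ.image g, Function.extend g w 0 m • (p m - x) ∈ V := by
    rw [Finset.sum_image (fun a _ b _ h => hginj h)]
    simpa only [hμ] using hgsum
  refine ⟨Finset.univ.image g, ?_, ?_, Function.extend g w 0, ?_, hTsum⟩
  · intro m hm
    obtain ⟨k, -, rfl⟩ := Finset.mem_image.1 hm
    exact hg k
  · apply le_antisymm
    · have h1 := haff.card_le_finrank_succ
      have h2 := Submodule.finrank_le (vectorSpan ℝ (Set.range z))
      rw [hcard]
      omega
    · by_contra hlt
      push Not at hlt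
      have hdisj : Disjoint (Finset.univ.image g) (S i) := by
        rw [Finset.disjoint_left]
        intro m hm hmS
        obtain ⟨k, -, rfl⟩ := Finset.mem_image.1 hm
        have h1 := hg k
        unfold LL at h1
        rw [Finset.mem_sdiff] at h1
        exact h1.2 (Finset.mem_biUnion.2 ⟨i, Finset.mem_univ _, hmS⟩)
      have hli := hINDEP d n p hp x (S i) (Finset.univ.image g) (hS.circ i) hdisj (by omega)
      rw [Fintype.linearIndependent_iff] at hli
      have hne : Nonempty ι := by
        by_contra hemp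
        rw [not_nonempty_iff] at hemp
        rw [Finset.univ_eq_empty, Finset.sum_empty] at hw1
        exact zero_ne_one hw1
      obtain ⟨k⟩ := hne
      have h1 := hli (fun m => Function.extend g w 0 (m : Fin n)) (by
        have h2 : ∀ m : (Finset.univ.image g : Finset (Fin n)),
            Function.extend g w 0 (m : Fin n) • (VV p x (S i)).mkQ (p (m : Fin n) - x) =
            (fun m : Fin n => (VV p x (S i)).mkQ (Function.extend g w 0 m • (p m - x))) m := by
          intro m
          show _ = (VV p x (S i)).mkQ (Function.extend g w 0 (m : Fin n) • (p (m : Fin n) - x))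
          rw [map_smul]
        rw [Finset.sum_congr rfl fun m _ => h2 m,
          Finset.sum_coe_sort (Finset.univ.image g)
            (fun m : Fin n => (VV p x (S i)).mkQ (Function.extend g w 0 m • (p m - x))),
          ← map_sum, Submodule.mkQ_apply, Submodule.Quotient.mk_eq_zero]
        exact hTsum) ⟨g k, Finset.mem_image_of_mem _ (Finset.mem_univ k)⟩
      have h2 : Function.extend g w 0 (g k) = 0 := h1
      rw [hμ] at h2
      exact (hw k).ne' h2
  · intro m hm
    obtain ⟨k, -, rfl⟩ := Finset.mem_image.1 hm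
    rw [hμ]
    exact hw k

end Pool.Agent.T2H81.RY
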