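import Pool.Agent.T2H81.RY.Stm

/-! Package ROT: rotation of a positive relation to a new point. -/

set_option autoImplicit false

open Module
open scoped BigOperators

namespace Pool.Agent.T2H81.RY

theorem T_ROT : P_DIM → P_INDEP → P_ROT := by
  classical
  intro hDIM hINDEP d n p hGP x S T μ y hC hSd hTS hcard hμ hrel hyS hyT
  obtain ⟨V, hV⟩ : ∃ V : Submodule ℝ (E d), V = VV p x S := ⟨_, rfl⟩
  obtain ⟨u, hu⟩ : ∃ u : Fin n → (E d ⧸ V), u = fun m => V.mkQ (p m - x) := ⟨_, rfl⟩
  have hind : ∀ T' : Finset (Fin n), Disjoint T' S → T'.card + S.card ≤ d + 1 →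
      ∀ a : Fin n → ℝ, ∑ i ∈ T', a i • u i = 0 → ∀ i ∈ T', a i = 0 := by
    intro T' h1 h2 a h3 i hi
    have h4 := hINDEP d n p hGP x S T' hC h1 h2
    rw [linearIndependent_iff'] at h4
    rw [← Finset.sum_coe_sort T' (fun i => a i • u i)] at h3
    rw [hu] at h3
    subst hV
    exact h4 Finset.univ (fun i => a i) h3 ⟨i, hi⟩ (Finset.mem_univ _)
  have hmem : ∀ (T' : Finset (Fin n)) (a : Fin n → ℝ), ∑ i ∈ T', a i • (p i - x) ∈ V ↔
      ∑ i ∈ T', a i • u i = 0 := by
    intro T' a
    rw [hu, ← Submodule.Quotient.mk_eq_zero V]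
    have h1 : (Submodule.Quotient.mk (∑ i ∈ T', a i • (p i - x)) : E d ⧸ V) =
        ∑ i ∈ T', a i • V.mkQ (p i - x) := by
      change V.mkQ (∑ i ∈ T', a i • (p i - x)) = _
      rw [map_sum]
      simp only [map_smul]
    rw [h1]
  rw [← hV] at hrel ⊢
  have hμ0 : ∑ m ∈ T, μ m • u m = 0 := (hmem T μ).1 hrel
  have hTne : T.Nonempty := by
    rw [← Finset.card_pos]
    omega
  obtain ⟨t0, ht0⟩ := hTne
  -- the vectors of `T \ t0` form a basis
  have hfr : finrank ℝ (E d ⧸ V) + S.card = d + 1 := by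
    have h1 := hDIM d n p hGP x S hC
    have h2 := V.finrank_quotient_add_finrank
    rw [finrank_euclideanSpace, Fintype.card_fin] at h2
    rw [← hV] at h1
    omega
  have hli : LinearIndependent ℝ (fun i : ↥(T.erase t0) => u i) := by
    have h1 : (T.erase t0).card + S.card ≤ d + 1 := by
      rw [Finset.card_erase_of_mem ht0]
      omega
    have h2 := hINDEP d n p hGP x S (T.erase t0) hC (hTS.mono_left (Finset.erase_subset _ _)) h1
    rw [hu]
    subst hV
    exact h2
  have hspan : Submodule.span ℝ (Set.range (fun i : ↥(T.erase t0) => u i)) = ⊤ := by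
    apply hli.span_eq_top_of_card_eq_finrank'
    rw [Fintype.card_coe, Finset.card_erase_of_mem ht0]
    omega
  have hy : - u y ∈ Submodule.span ℝ (Set.range (fun i : ↥(T.erase t0) => u i)) := by
    rw [hspan]
    trivial
  obtain ⟨α, hα⟩ : ∃ α : Fin n → ℝ, ∑ m ∈ T, α m • u m = - u y := by
    rw [Submodule.mem_span_range_iff_exists_fun] at hy
    obtain ⟨c, hc⟩ := hy
    refine ⟨fun m => if h : m ∈ T.erase t0 then c ⟨m, h⟩ else 0, ?_⟩
    rw [← hc, ← Finset.add_sum_erase T _ ht0]
    simp only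
    rw [dif_neg (Finset.notMem_erase t0 T), zero_smul, zero_add, ← Finset.sum_coe_sort (T.erase t0)]
    refine Finset.sum_congr rfl fun i _ => ?_
    rw [dif_pos i.2]
  obtain ⟨t, ht, hmin⟩ := Finset.exists_min_image T (fun m => α m / μ m) ⟨t0, ht0⟩
  obtain ⟨β, hβ⟩ : ∃ β : Fin n → ℝ, β = fun m => α m - α t / μ t * μ m := ⟨_, rfl⟩
  have hβ0 : ∀ m ∈ T, 0 ≤ β m := by
    intro m hm
    have h1 := hmin m hm
    rw [hβ]
    simp only
    have h2 : α t / μ t * μ m ≤ α m / μ m * μ m := mul_le_mul_of_nonneg_right h1 (hμ m hm).le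
    rw [div_mul_cancel₀ _ (hμ m hm).ne'] at h2
    linarith
  have hβt : β t = 0 := by
    rw [hβ]
    simp only
    rw [div_mul_cancel₀ _ (hμ t ht).ne', sub_self]
  have hβs : ∑ m ∈ T.erase t, β m • u m = - u y := by
    have h1 : ∑ m ∈ T, β m • u m = - u y := by
      rw [hβ]
      simp only [sub_smul, mul_smul]
      rw [Finset.sum_sub_distrib, ← Finset.smul_sum, hμ0, smul_zero, sub_zero, hα]
    rw [← Finset.add_sum_erase T _ ht, hβt, zero_smul, zero_add] at h1
    exact h1
  have hyTt : y ∉ T.erase t := fun h => hyT (Finset.mem_of_mem_erase h)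
  have hβpos : ∀ m ∈ T.erase t, 0 < β m := by
    intro m hm
    refine lt_of_le_of_ne (hβ0 m (Finset.mem_of_mem_erase hm)) fun h0 => ?_
    have hyTm : y ∉ (T.erase t).erase m := fun h => hyTt (Finset.mem_of_mem_erase h)
    have h1 : ∑ i ∈ insert y ((T.erase t).erase m), (if i = y then 1 else β i) • u i = 0 := by
      rw [Finset.sum_insert hyTm, if_pos rfl, one_smul]
      have h2 : ∑ i ∈ (T.erase t).erase m, (if i = y then 1 else β i) • u i =
          ∑ i ∈ (T.erase t).erase m, β i • u i := by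
        refine Finset.sum_congr rfl fun i hi => ?_
        rw [if_neg]
        rintro rfl
        exact hyTm hi
      rw [h2]
      rw [← Finset.add_sum_erase (T.erase t) _ hm, ← h0, zero_smul, zero_add] at hβs
      rw [hβs, add_neg_cancel]
    have h3 := hind (insert y ((T.erase t).erase m)) ?_ ?_ _ h1 y (Finset.mem_insert_self _ _)
    · rw [if_pos rfl] at h3
      exact one_ne_zero h3
    · rw [Finset.disjoint_insert_left]
      exact ⟨hyS, hTS.mono_left ((Finset.erase_subset _ _).trans (Finset.erase_subset _ _))⟩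
    · rw [Finset.card_insert_of_notMem hyTm, Finset.card_erase_of_mem hm, Finset.card_erase_of_mem ht]
      have : 1 ≤ (T.erase t).card := Finset.card_pos.2 ⟨m, hm⟩
      rw [Finset.card_erase_of_mem ht] at this
      omega
  refine ⟨t, ht, fun m => if m = y then 1 else β m, ?_, ?_⟩
  · intro m hm
    simp only
    split_ifs with h
    · exact one_pos
    · exact hβpos m ((Finset.mem_insert.1 hm).resolve_left h)
  · rw [hmem, Finset.sum_insert hyTt, if_pos rfl, one_smul]
    have h2 : ∑ i ∈ T.erase t, (if i = y then 1 else β i) • u i =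
        ∑ i ∈ T.erase t, β i • u i := by
      refine Finset.sum_congr rfl fun i hi => ?_
      rw [if_neg]
      rintro rfl
      exact hyTt hi
    rw [h2, hβs, add_neg_cancel]

end Pool.Agent.T2H81.RY
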