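import Pool.Agent.T2H81.RY.T_INDEP

/-!
# Package SPAN
-/

set_option autoImplicit false

open Module
open scoped BigOperators

namespace Pool.Agent.T2H81.RY

theorem T_SPAN : P_SPAN := by
  classical
  intro d n p hp x S hS
  obtain ⟨S', hS', hc⟩ := Finset.exists_subset_card_eq hS
  have hai := hp S' hc.le
  have htop : vectorSpan ℝ (Set.range fun i : S' => p (i : Fin n)) = ⊤ := by
    apply hai.vectorSpan_eq_top_of_card_eq_finrank_add_one
    rw [Fintype.card_coe, hc, finrank_euclideanSpace_fin]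
  rw [eq_top_iff, ← htop, vectorSpan_def, Submodule.span_le]
  rintro _ ⟨_, ⟨i, rfl⟩, _, ⟨j, rfl⟩, rfl⟩
  have h1 : p (i : Fin n) - x ∈ VV p x S := Submodule.subset_span ⟨i, hS' i.2, rfl⟩
  have h2 : p (j : Fin n) - x ∈ VV p x S := Submodule.subset_span ⟨j, hS' j.2, rfl⟩
  have h3 := Submodule.sub_mem _ h1 h2
  rw [sub_sub_sub_cancel_right] at h3
  exact h3

end Pool.Agent.T2H81.RY
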