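import Pool.Agent.T2H81.RY.Stm

/-!
# Package TIE
-/

set_option autoImplicit false

open Module
open scoped BigOperators

namespace Pool.Agent.T2H81.RY

theorem T_TIE : P_POS → P_ROT → P_EXCH → P_DIMC → P_TIE := by
  intro hPOS hROT hEXCH hDIMC d n r p hp hr x S hS hA hn i hi hL hmax hW
  obtain ⟨T, hTL, hTc, μ, hμ, hμV⟩ := hPOS d n r p hp hr x S hS hA hn i hi
  have hLS : ∀ m ∈ LL S, ∀ j, m ∉ S j := by
    intro m hm j hj
    simp only [LL, Finset.mem_sdiff, Finset.mem_univ, true_and, Finset.mem_biUnion,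
      not_exists] at hm
    exact hm j hj
  have hTS : ∀ j, Disjoint T (S j) := fun j =>
    Finset.disjoint_left.2 fun m hm hj => hLS m (hTL hm) j hj
  obtain ⟨y, hyL, hyT⟩ : ∃ y ∈ LL S, y ∉ T :=
    Finset.exists_mem_notMem_of_card_lt_card (by omega)
  have hyS : ∀ j, y ∉ S j := hLS y hyL
  obtain ⟨t, ht, ν, hν, hνV⟩ := hROT d n p hp x (S i) T μ y (hS.circ i) hi (hTS i) hTc hμ hμV
    (hyS i) hyT
  obtain ⟨Z, hZS, hZne, hP⟩ := hEXCH d n p x (S i) T μ (hS.circ i) (hTS i) hTc hμ hμV
  have hT'c : (insert y (T.erase t)).card = T.card := by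
    rw [Finset.card_insert_of_notMem (fun h => hyT (Finset.mem_of_mem_erase h)),
      Finset.card_erase_of_mem ht]
    have := Finset.card_pos.2 ⟨t, ht⟩
    omega
  have hT'S : ∀ j, Disjoint (insert y (T.erase t)) (S j) := by
    intro j
    rw [Finset.disjoint_left]
    intro m hm hj
    rcases Finset.mem_insert.1 hm with h | h
    · exact hyS j (h ▸ hj)
    · exact Finset.disjoint_left.1 (hTS j) (Finset.mem_of_mem_erase h) hj
  obtain ⟨Z', hZ'S, hZ'ne, hP'⟩ := hEXCH d n p x (S i) (insert y (T.erase t)) ν (hS.circ i)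
    (hT'S i) (by omega) hν hνV
  have h1 := hmax _ hP (by
    intro j hj
    rw [Finset.disjoint_union_left]
    exact ⟨(hS.disj i j hj.symm).mono_left Finset.sdiff_subset, hTS j⟩)
  have h2 := hmax _ hP' (by
    intro j hj
    rw [Finset.disjoint_union_left]
    exact ⟨(hS.disj i j hj.symm).mono_left Finset.sdiff_subset, hT'S j⟩)
  have h3 := hDIMC d n p hp x (S i) T Z Z' t y (WW p x S) (hS.circ i) (hTS i) hTc ht (hyS i) hyT
    hZS hZ'S hP hP' (iInf_le _ i) (hW _ hP) (hW _ hP')
  rw [Finset.card_union_of_disjoint ((hTS i).symm.mono_left Finset.sdiff_subset),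
    Finset.card_sdiff_of_subset hZS] at h1
  rw [Finset.card_union_of_disjoint ((hT'S i).symm.mono_left Finset.sdiff_subset),
    Finset.card_sdiff_of_subset hZ'S] at h2
  have h4 := Finset.card_le_card hZS
  have h5 := Finset.card_le_card hZ'S
  omega

end Pool.Agent.T2H81.RY
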