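import Pool.Agent.T2H81.RY.Stm
import Pool.Agent.Helper873.Birch.Main

set_option autoImplicit false

open Module
open scoped BigOperators

namespace Pool.Agent.T2H81.RY

theorem T_TV : P_TV := by
  classical
  intro d n r p hr hn
  have hfr : finrank ℝ (EuclideanSpace ℝ (Fin d) × ℝ) = d + 1 := by
    rw [Module.finrank_prod, finrank_euclideanSpace_fin, Module.finrank_self]
  have hcard : (r - 1) * finrank ℝ (EuclideanSpace ℝ (Fin d) × ℝ) + 1 ≤
      Fintype.card (Fin n) := by
    rw [hfr, Fintype.card_fin, mul_comm]; exact hn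
  obtain ⟨c, l, z, hl0, hl1, hz⟩ :=
    Pool.Agent.Helper873.Birch.sark (V := EuclideanSpace ℝ (Fin d) × ℝ) r hr
      (fun i : Fin n => ((p i, (1 : ℝ)) : EuclideanSpace ℝ (Fin d) × ℝ)) hcard
  have hz1 : ∀ j : Fin r, ∑ i with c i = j, l i • p i = z.1 := by
    intro j
    have := congrArg Prod.fst (hz j)
    rw [Prod.fst_sum] at this
    exact this
  have hz2 : ∀ j : Fin r, ∑ i with c i = j, l i = z.2 := by
    intro j
    have := congrArg Prod.snd (hz j)
    rw [Prod.snd_sum] at this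
    simpa using this
  have htot : (r : ℝ) * z.2 = 1 := by
    have h1 : ∑ j : Fin r, ∑ i with c i = j, l i = ∑ i, l i :=
      Finset.sum_fiberwise_of_maps_to (fun i _ => Finset.mem_univ (c i)) l
    rw [hl1] at h1
    rw [← h1, Finset.sum_congr rfl (fun j _ => hz2 j)]
    simp
  have hmpos : (0 : ℝ) < r := by exact_mod_cast hr
  have hμ : 0 < z.2 := by
    by_contra hcon
    push Not at hcon
    have := mul_nonpos_of_nonneg_of_nonpos hmpos.le hcon
    linarith
  refine ⟨c, z.2⁻¹ • z.1, fun j => ?_⟩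
  have hq : z.2⁻¹ • z.1 = ∑ i with c i = j, (z.2⁻¹ * l i) • p i := by
    rw [← hz1 j, Finset.smul_sum]
    refine Finset.sum_congr rfl fun i _ => ?_
    rw [smul_smul]
  rw [hq]
  refine (convex_convexHull ℝ _).sum_mem
    (fun i _ => mul_nonneg (inv_nonneg.mpr hμ.le) (hl0 i)) ?_ ?_
  · rw [← Finset.mul_sum, hz2 j, inv_mul_cancel₀ hμ.ne']
  · intro i hi
    apply subset_convexHull
    rw [Finset.mem_filter] at hi
    exact ⟨i, hi.2, rfl⟩

end Pool.Agent.T2H81.RY
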