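import Pool.Agent.T2H81.RY.Stm

/-!
# Package ASM
-/

set_option autoImplicit false

open Module
open scoped BigOperators

namespace Pool.Agent.T2H81.RY

namespace PkgASM

lemma exists_max {α : Type*} (P : α → Prop) (f : α → ℕ) (B : ℕ) (h : ∃ a, P a)
    (hB : ∀ a, P a → f a ≤ B) : ∃ a, P a ∧ ∀ b, P b → f b ≤ f a := by
  obtain ⟨a, ha⟩ := h
  induction' hk : B - f a using Nat.strong_induction_on with k ih generalizing a
  by_cases hmax : ∀ b, P b → f b ≤ f a
  · exact ⟨a, ha, hmax⟩
  · push Not at hmax
    obtain ⟨b, hb, hab⟩ := hmax
    have := hB b hb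
    exact ih (B - f b) (by omega) b hb rfl

lemma total {d n r : ℕ} {p : Fin n → E d} {x : E d} {S : Fin r → Finset (Fin n)}
    (hS : State p x S) : (LL S).card + ∑ j, (S j).card = n := by
  classical
  have h1 : (Finset.univ.biUnion S).card = ∑ j, (S j).card :=
    Finset.card_biUnion fun i _ j _ hij => hS.disj i j hij
  have h2 : (LL S).card = n - (Finset.univ.biUnion S).card := by
    rw [LL, Finset.card_sdiff_of_subset (Finset.subset_univ _), Finset.card_univ,
      Fintype.card_fin]
  have h3 : (Finset.univ.biUnion S).card ≤ n := by
    simpa using Finset.card_le_card (Finset.subset_univ (Finset.univ.biUnion S))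
  omega

lemma sumE_add {d n r : ℕ} {p : Fin n → E d} {x : E d} {S : Fin r → Finset (Fin n)}
    (hS : State p x S) : sumE d S + ∑ j, (S j).card = r * (d + 1) := by
  rw [sumE, ← Finset.sum_add_distrib]
  have h1 : ∀ j ∈ (Finset.univ : Finset (Fin r)), (d + 1 - (S j).card) + (S j).card = d + 1 := by
    intro j _
    have := (hS.circ j).1
    omega
  rw [Finset.sum_congr rfl h1]
  simp

end PkgASM

open PkgASM

theorem T_ASM : P_TV → P_GEN → P_GEN2 → P_IMP → P_FIN → P_KEY2 → P_ROOM → P_TIE → P_ASM := by
  classical
  intro hTV hGEN hGEN2 hIMP hFIN hKEY2 hROOM hTIE d r k n hr hr5 hkd hn p hp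
  have hp' : GP p := hp
  -- there is a state
  obtain ⟨f0, x0, hx0⟩ := hTV d n r p hr (by omega)
  obtain ⟨x1, S1, hS1, -, -⟩ := hGEN d n r p hp' (fun i => Finset.univ.filter fun m => f0 m = i)
    (by
      intro i j hij
      rw [Finset.disjoint_left]
      intro m hm hm'
      rw [Finset.mem_filter] at hm hm'
      exact hij (hm.2.symm.trans hm'.2)) 0 (fun _ => x0)
    (by
      haveI : Subsingleton (Fin (0 + 1)) := ⟨fun a b => by omega⟩
      exact affineIndependent_of_subsingleton ℝ _)
    (by
      intro j i
      have := hx0 i
      simpa using this)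
  -- an extremal state
  obtain ⟨⟨x, S⟩, hS, hmax⟩ := exists_max
    (fun a : E d × (Fin r → Finset (Fin n)) => State p a.1 a.2)
    (fun a => finrank ℝ (WW p a.1 a.2) * (n + 1) + ∑ j, (a.2 j).card) (d * (n + 1) + n)
    ⟨(x1, S1), hS1⟩ (by
      rintro ⟨x, S⟩ hS
      dsimp only at hS
      have h1 := total hS
      have h2 : finrank ℝ (WW p x S) ≤ d := by
        have := Submodule.finrank_le (WW p x S)
        simpa using this
      have h3 : finrank ℝ (WW p x S) * (n + 1) ≤ d * (n + 1) := Nat.mul_le_mul_right _ h2
      dsimp only
      omega)
  dsimp only at hS hmax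
  have hmax' : ∀ (x' : E d) (S' : Fin r → Finset (Fin n)), State p x' S' →
      finrank ℝ (WW p x' S') * (n + 1) + ∑ j, (S' j).card ≤
        finrank ℝ (WW p x S) * (n + 1) + ∑ j, (S j).card := fun x' S' h => hmax (x', S') h
  by_cases hk : k ≤ finrank ℝ (WW p x S)
  · exact hFIN d n r k p hp' hr x S hS hk
  exfalso
  push Not at hk
  obtain ⟨x', hS', hWW, hcirc⟩ := hGEN2 d n r p hp' x S hS
  rw [← hWW] at hmax' hk
  set D := finrank ℝ (WW p x' S) with hD
  have hA : ¬ CaseA p x' S := by
    intro hA
    obtain ⟨x2, S2, hS2, hlt⟩ := hIMP d n r p hp' x' S hS' hA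
    have h1 := hmax' x2 S2 hS2
    have h2 := total hS'
    have h3 : (D + 1) * (n + 1) ≤ finrank ℝ (WW p x2 S2) * (n + 1) :=
      Nat.mul_le_mul_right _ hlt
    have h4 : (D + 1) * (n + 1) = D * (n + 1) + (n + 1) := by ring
    omega
  have htot := total hS'
  have hsE := sumE_add hS'
  obtain ⟨r', rfl⟩ : ∃ r', r = r' + 1 := ⟨r - 1, by omega⟩
  have hrr : (r' + 1) * (d + 1) = (d + 1) * (r' + 1 - 1) + (d + 1) := by
    rw [Nat.add_sub_cancel]; ring
  have hcount : (LL S).card + d = sumE d S + k := by omega
  have hlt : sumE d S < (LL S).card + (d - finrank ℝ (WW p x' S)) := by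
    rw [← hD]; omega
  have hkey := hKEY2 d n (r' + 1) p hp' hr x' S hS' hA hlt
  have hall : ∀ i, 3 * (d + 1 - (S i).card) ≤ d - D := by
    intro i
    by_cases hi : (S i).card ≤ d
    · have hroom := hROOM d n (r' + 1) p hp' x' S hS' hkey i hi
      have h3 := hTIE d n (r' + 1) p hp' hr x' S hS' hA hlt i hi (by omega) (by
        intro P hP hPd
        have hst : State p x' (Function.update S i P) := by
          constructor
          · intro a b hab
            by_cases ha : a = i
            · subst ha
              rw [Function.update_self, Function.update_of_ne (Ne.symm hab)]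
              exact hPd b (Ne.symm hab)
            · rw [Function.update_of_ne ha]
              by_cases hb : b = i
              · subst hb
                rw [Function.update_self]
                exact (hPd a ha).symm
              · rw [Function.update_of_ne hb]
                exact hS'.disj a b hab
          · intro a
            by_cases ha : a = i
            · subst ha
              rw [Function.update_self]
              exact hP
            · rw [Function.update_of_ne ha]
              exact hS'.circ a
        have hle : WW p x' S ≤ WW p x' (Function.update S i P) := by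
          refine le_iInf fun a => ?_
          by_cases ha : a = i
          · subst ha
            rw [Function.update_self]
            exact hcirc P hP
          · rw [Function.update_of_ne ha]
            exact iInf_le _ a
        have hfr := Submodule.finrank_mono hle
        have h1 := hmax' x' _ hst
        have h2 : D * (n + 1) ≤ finrank ℝ (WW p x' (Function.update S i P)) * (n + 1) :=
          Nat.mul_le_mul_right _ hfr
        have h4 : ∑ j, (Function.update S i P j).card + (S i).card =
            ∑ j, (S j).card + P.card := by
          have e1 := Finset.add_sum_erase Finset.univ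
            (fun j => (Function.update S i P j).card) (Finset.mem_univ i)
          have e2 := Finset.add_sum_erase Finset.univ
            (fun j => (S j).card) (Finset.mem_univ i)
          have e3 : ∑ j ∈ Finset.univ.erase i, (Function.update S i P j).card =
              ∑ j ∈ Finset.univ.erase i, (S j).card := by
            refine Finset.sum_congr rfl fun j hj => ?_
            rw [Function.update_of_ne (Finset.ne_of_mem_erase hj)]
          simp only [Function.update_self] at e1
          omega
        omega) hcirc
      rw [← hD] at h3
      omega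
    · have : d + 1 - (S i).card = 0 := by omega
      rw [this]; omega
  have hsum : 3 * sumE d S ≤ (r' + 1) * (d - D) := by
    rw [sumE, Finset.mul_sum]
    calc ∑ i, 3 * (d + 1 - (S i).card) ≤ ∑ _i : Fin (r' + 1), (d - D) :=
          Finset.sum_le_sum fun i _ => hall i
      _ = (r' + 1) * (d - D) := by simp
  have h5 : (r' + 1) * (d - D) ≤ 5 * (d - D) := Nat.mul_le_mul_right _ hr5
  omega

end Pool.Agent.T2H81.RY
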