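import Pool.Agent.T2H81.RY.Stm

/-! # Shared lemmas for the packages GEN, GEN2, IMP, FIN -/

set_option autoImplicit false

open Module Filter Topology
open scoped BigOperators

namespace Pool.Agent.T2H81.RY.LibGen

variable {d n : ℕ}

theorem exists_generic (p : Fin n → E d) (W : Submodule ℝ (E d)) :
    ∃ v ∈ W, ∀ P : Finset (Fin n), ¬ W ≤ vectorSpan ℝ (p '' (P : Set (Fin n))) →
      v ∉ vectorSpan ℝ (p '' (P : Set (Fin n))) := by
  classical
  let s : Finset (Submodule ℝ W) :=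
    Finset.image (fun P : Finset (Fin n) => (vectorSpan ℝ (p '' (P : Set (Fin n)))).comap W.subtype)
      (Finset.univ.filter fun P : Finset (Fin n) => ¬ W ≤ vectorSpan ℝ (p '' (P : Set (Fin n))))
  have hs : ⊤ ∉ s := by
    intro h
    rw [Finset.mem_image] at h
    obtain ⟨P, hP, hP2⟩ := h
    apply (Finset.mem_filter.1 hP).2
    intro w hw
    have : (⟨w, hw⟩ : W) ∈ (vectorSpan ℝ (p '' (P : Set (Fin n)))).comap W.subtype := by
      rw [hP2]; exact Submodule.mem_top
    exact this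
  have h1 := Subspace.biUnion_ne_univ_of_top_notMem hs
  rw [Set.ne_univ_iff_exists_notMem] at h1
  obtain ⟨v, hv⟩ := h1
  refine ⟨v.1, v.2, fun P hP hvP => hv ?_⟩
  rw [Set.mem_iUnion₂]
  refine ⟨_, Finset.mem_image.2 ⟨P, Finset.mem_filter.2 ⟨Finset.mem_univ _, hP⟩, rfl⟩, hvP⟩

theorem eventually_notMem (p : Fin n → E d) (g v : E d) (P : Finset (Fin n))
    (hv : v ∉ vectorSpan ℝ (p '' (P : Set (Fin n)))) :
    ∀ᶠ t in 𝓝[>] (0 : ℝ), g + t • v ∉ affineSpan ℝ (p '' (P : Set (Fin n))) := by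
  by_cases hex : ∃ t0 : ℝ, g + t0 • v ∈ affineSpan ℝ (p '' (P : Set (Fin n)))
  · obtain ⟨t0, ht0⟩ := hex
    have h1 : ∀ᶠ t in 𝓝[>] (0 : ℝ), t ≠ t0 := by
      by_cases h0 : t0 = 0
      · subst h0
        filter_upwards [self_mem_nhdsWithin] with t ht
        exact ne_of_gt ht
      · exact (eventually_ne_nhds (Ne.symm h0)).filter_mono nhdsWithin_le_nhds
    filter_upwards [h1] with t ht hmem
    apply hv
    have h2 := AffineSubspace.vsub_mem_direction hmem ht0
    rw [direction_affineSpan] at h2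
    have h3 : (g + t • v) -ᵥ (g + t0 • v) = (t - t0) • v := by
      rw [vsub_eq_sub, sub_smul]; abel
    rw [h3] at h2
    have h4 := (vectorSpan ℝ (p '' (P : Set (Fin n)))).smul_mem (t - t0)⁻¹ h2
    rwa [smul_smul, inv_mul_cancel₀ (sub_ne_zero.2 ht), one_smul] at h4
  · push Not at hex
    exact Eventually.of_forall hex

theorem circ_mem_affineSpan {p : Fin n → E d} {x : E d} {S : Finset (Fin n)} (h : Circ p x S) :
    x ∈ affineSpan ℝ (p '' (S : Set (Fin n))) := by
  classical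
  obtain ⟨-, w, hw, hw1, hw2⟩ := h
  rw [← hw2]
  have h1 := affineCombination_mem_affineSpan (k := ℝ) (s := (Finset.univ : Finset S))
    (w := fun i : S => w i) (by rw [Finset.sum_coe_sort S w]; exact hw1) (fun i : S => p i)
  rw [Finset.affineCombination_eq_linear_combination _ _ _ (by rw [Finset.sum_coe_sort S w]; exact hw1)] at h1
  have h2 : ∑ i : S, w i • p i = ∑ i ∈ S, w i • p i := Finset.sum_coe_sort S (fun i => w i • p i)
  rw [h2] at h1
  have h3 : Set.range (fun i : S => p i) = p '' (S : Set (Fin n)) := by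
    ext z; simp
  rw [h3] at h1
  exact h1

theorem vv_eq {p : Fin n → E d} {x : E d} {S : Finset (Fin n)}
    (hx : x ∈ affineSpan ℝ (p '' (S : Set (Fin n)))) :
    VV p x S = vectorSpan ℝ (p '' (S : Set (Fin n))) := by
  apply le_antisymm
  · unfold VV
    rw [Submodule.span_le]
    rintro _ ⟨i, hi, rfl⟩
    have h1 := AffineSubspace.vsub_mem_direction (subset_affineSpan ℝ _ (Set.mem_image_of_mem p hi)) hx
    rw [direction_affineSpan] at h1
    exact h1
  · unfold vectorSpan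
    rw [Submodule.span_le]
    rintro _ ⟨_, ⟨i, hi, rfl⟩, _, ⟨j, hj, rfl⟩, rfl⟩
    have h1 : p i - x ∈ VV p x S := Submodule.subset_span ⟨i, hi, rfl⟩
    have h2 : p j - x ∈ VV p x S := Submodule.subset_span ⟨j, hj, rfl⟩
    have h3 := (VV p x S).sub_mem h1 h2
    simp only [sub_sub_sub_cancel_right] at h3
    exact h3

theorem mem_vv_iff {p : Fin n → E d} {x v : E d} {S : Finset (Fin n)} (h : v ∈ VV p x S) :
    ∃ a : Fin n → ℝ, ∑ i ∈ S, a i • (p i - x) = v := by
  classical
  unfold VV at h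
  have := (Submodule.mem_span_image_finset_iff_exists_fun' (R := ℝ) (v := fun i => p i - x) (s := S)).1 h
  obtain ⟨a, ha⟩ := this
  exact ⟨a, ha⟩

theorem eventually_pos (a b : ℝ) (ha : 0 < a) : ∀ᶠ t in 𝓝[>] (0 : ℝ), 0 < a + t * b := by
  have h : Tendsto (fun t : ℝ => a + t * b) (𝓝[>] 0) (𝓝 (a + 0 * b)) :=
    ((continuous_const.add (continuous_id.mul continuous_const)).tendsto 0).mono_left nhdsWithin_le_nhds
  refine h.eventually_const_lt ?_
  simpa using ha

/-- moving inside the span of a circuit -/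
theorem circ_move {p : Fin n → E d} {x v : E d} {S : Finset (Fin n)} (h : Circ p x S)
    (hv : v ∈ VV p x S) : ∀ᶠ t in 𝓝[>] (0 : ℝ), Circ p (x + t • v) S := by
  classical
  obtain ⟨hc, w, hw, hw1, hw2⟩ := h
  obtain ⟨a, ha⟩ := mem_vv_iff hv
  have h1 : ∀ᶠ t in 𝓝[>] (0 : ℝ), ∀ i ∈ S, 0 < w i + t * (a i - (∑ j ∈ S, a j) * w i) := by
    rw [Filter.eventually_all_finset]
    intro i hi
    exact eventually_pos _ _ (hw i hi)
  filter_upwards [h1] with t ht
  refine ⟨hc, fun i => w i + t * (a i - (∑ j ∈ S, a j) * w i), ht, ?_, ?_⟩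
  · rw [Finset.sum_add_distrib, ← Finset.mul_sum, Finset.sum_sub_distrib, ← Finset.mul_sum, hw1]
    ring
  · have h2 : ∑ i ∈ S, a i • (p i - x) = ∑ i ∈ S, a i • p i - (∑ j ∈ S, a j) • x := by
      simp only [smul_sub]
      rw [Finset.sum_sub_distrib, ← Finset.sum_smul]
    rw [h2] at ha
    simp only [add_smul, mul_smul, sub_smul]
    rw [Finset.sum_add_distrib, hw2, ← Finset.smul_sum, Finset.sum_sub_distrib, ← Finset.smul_sum, hw2, ha]

theorem circ_mem_convexHull {p : Fin n → E d} {x : E d} {S : Finset (Fin n)} (h : Circ p x S) :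
    x ∈ convexHull ℝ (p '' (S : Set (Fin n))) := by
  obtain ⟨-, w, hw, hw1, hw2⟩ := h
  rw [← hw2]
  refine (convex_convexHull ℝ _).sum_mem (fun i hi => (hw i hi).le) hw1 (fun i hi => ?_)
  exact subset_convexHull ℝ _ (Set.mem_image_of_mem p hi)

end Pool.Agent.T2H81.RY.LibGen
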