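import Pool.Agent.T2H81.RY.Stm

set_option autoImplicit false

open Module
open scoped BigOperators

namespace Pool.Agent.T2H81.RY

theorem ROOM_sup {d n : ℕ} (p : Fin n → E d) (x : E d) (A B : Finset (Fin n)) :
    VV p x A ⊔ VV p x B = VV p x (A ∪ B) := by
  unfold VV
  rw [Finset.coe_union, Set.image_union, Submodule.span_union]

theorem ROOM_fr (d : ℕ) : finrank ℝ (E d) = d := by simp [E]

theorem ROOM_ne {d n : ℕ} {p : Fin n → E d} {x : E d} {S : Finset (Fin n)} (h : Circ p x S) :
    S.Nonempty := by
  obtain ⟨-, w, -, h1, -⟩ := h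
  rw [Finset.nonempty_iff_ne_empty]
  rintro rfl
  simp at h1

theorem T_ROOM : P_DIM → P_SPAN → P_CIRCU → P_ROOM := by
  intro hDIM hSPAN hCIRCU d n r p hp x S hS hsum i hi
  classical
  have hW : ∀ j, WW p x S ≤ VV p x (S j) := fun j => iInf_le _ j
  have di := hDIM d n p hp x (S i) (hS.circ i)
  have hle := Submodule.finrank_mono (hW i)
  by_contra hcon
  push Not at hcon
  have heq : finrank ℝ (WW p x S) = finrank ℝ (VV p x (S i)) := by omega
  have hWi : WW p x S = VV p x (S i) := Submodule.eq_of_le_of_finrank_eq (hW i) heq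
  -- another part with at most `d` points
  have hex : ∃ j, j ≠ i ∧ (S j).card ≤ d := by
    by_contra hno
    push Not at hno
    have h1 : sumE d S = d + 1 - (S i).card := by
      unfold sumE
      rw [Finset.sum_eq_single_of_mem i (Finset.mem_univ _)]
      intro j _ hj
      have := hno j hj
      omega
    omega
  obtain ⟨j, hji, hj⟩ := hex
  have dj := hDIM d n p hp x (S j) (hS.circ j)
  have hne : S i ≠ S j := by
    intro h
    have h1 := hS.disj i j (Ne.symm hji)
    rw [h, Finset.disjoint_self_iff_empty] at h1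
    exact (ROOM_ne (hS.circ j)).ne_empty h1
  have hc := hCIRCU d n p hp x (S i) (S j) (hS.circ i) (hS.circ j) hne
  have htop := hSPAN d n p hp x (S i ∪ S j) (by omega)
  rw [← ROOM_sup, ← hWi, sup_eq_right.2 (hW j)] at htop
  rw [htop, finrank_top, ROOM_fr] at dj
  omega

end Pool.Agent.T2H81.RY
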