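import Mathlib

/-!
# Reay's conjecture for at most five parts: definitions and the statements of the packages

Every package is a Prop P_XX with its complete paper proof in the docstring.  The proof of package
XX goes into the file Pool/Agent/T2H81/RY/T_XX.lean (theorem T_XX).
-/

set_option autoImplicit false

open Module
open scoped BigOperators

namespace Pool.Agent.T2H81.RY

/-- the space -/
abbrev E (d : ℕ) := EuclideanSpace ℝ (Fin d)

/-- general position: any at most d+1 of the points are affinely independent -/
def GP {d n : ℕ} (p : Fin n → E d) : Prop :=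
  ∀ s : Finset (Fin n), s.card ≤ d + 1 → AffineIndependent ℝ (fun i : s => p (i : Fin n))

/-- a positive circuit at x: at most d+1 points, and x is a convex combination of all of them
with positive weights -/
def Circ {d n : ℕ} (p : Fin n → E d) (x : E d) (S : Finset (Fin n)) : Prop :=
  S.card ≤ d + 1 ∧ ∃ w : Fin n → ℝ, (∀ i ∈ S, 0 < w i) ∧ ∑ i ∈ S, w i = 1 ∧
    ∑ i ∈ S, w i • p i = x

/-- the span of the differences p i - x with i in S -/
noncomputable def VV {d n : ℕ} (p : Fin n → E d) (x : E d) (S : Finset (Fin n)) :
    Submodule ℝ (E d) :=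
  Submodule.span ℝ ((fun i => p i - x) '' (S : Set (Fin n)))

/-- the intersection of the spans of all parts -/
noncomputable def WW {d n r : ℕ} (p : Fin n → E d) (x : E d) (S : Fin r → Finset (Fin n)) :
    Submodule ℝ (E d) :=
  ⨅ j, VV p x (S j)

/-- a state: r pairwise disjoint positive circuits at the same point x -/
structure State {d n r : ℕ} (p : Fin n → E d) (x : E d) (S : Fin r → Finset (Fin n)) : Prop where
  disj : ∀ i j, i ≠ j → Disjoint (S i) (S j)
  circ : ∀ j, Circ p x (S j)

/-- the unused points of a state -/
def LL {n r : ℕ} (S : Fin r → Finset (Fin n)) : Finset (Fin n) :=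
  Finset.univ \ Finset.univ.biUnion S

/-- the sum of the codimensions of the parts (as d+1 minus the number of points) -/
def sumE {n r : ℕ} (d : ℕ) (S : Fin r → Finset (Fin n)) : ℕ :=
  ∑ j, (d + 1 - (S j).card)

/-- Case A: a vector b outside the intersection W such that for every part j the vector b is, modulo
the span of the part j, a nonnegative combination of unused points reserved for this part -/
def CaseA {d n r : ℕ} (p : Fin n → E d) (x : E d) (S : Fin r → Finset (Fin n)) : Prop :=
  ∃ b : E d, b ∉ WW p x S ∧ ∃ c : Fin n → ℝ, (∀ m, 0 ≤ c m) ∧ ∃ σ : Fin n → Fin r,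
    ∀ j, b - ∑ m ∈ (LL S).filter (fun m => σ m = j), c m • (p m - x) ∈ VV p x (S j)

/-- **Package DIM.**  The span of a positive circuit with s points has dimension s-1.

Proof.  Let x be the sum of w i p i over S, w positive with sum 1 (so S is nonempty).  For i, j in S
the vector p i - p j = (p i - x) - (p j - x) is in VV, and p i - x is the sum of w j (p i - p j).
So VV p x S is the vector span of the points p i, i in S (vectorSpan ℝ (p '' S)), which has
dimension |S| - 1 by affine independence (GP, |S| ≤ d+1;
AffineIndependent.finrank_vectorSpan_image_finset or finrank_vectorSpan). -/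
def P_DIM : Prop :=
  ∀ (d n : ℕ) (p : Fin n → E d), GP p → ∀ (x : E d) (S : Finset (Fin n)), Circ p x S →
    finrank ℝ (VV p x S) + 1 = S.card

/-- **Package SPAN.**  At least d+1 points span everything, relative to any point x.

Proof.  Take a subset S' of S with d+1 points; it is affinely independent, so its vector span is
everything (finrank_vectorSpan = d).  The vector span is contained in VV p x S because
p i - p j = (p i - x) - (p j - x). -/
def P_SPAN : Prop :=
  ∀ (d n : ℕ) (p : Fin n → E d), GP p → ∀ (x : E d) (S : Finset (Fin n)), d + 1 ≤ S.card →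
    VV p x S = ⊤

/-- **Package CIRCU.**  Two different positive circuits at x have together at least d+2 points.

Proof.  Suppose |A ∪ B| ≤ d+1.  Then the points of A ∪ B are affinely independent.  The point x is
an affine combination of the points of A ∪ B in two ways: with the weights of A (positive on A,
extended by 0 to B \ A) and with the weights of B (extended by 0).  By affine independence the
two weight vectors agree on A ∪ B, so A = {weights ≠ 0} = B. -/
def P_CIRCU : Prop :=
  ∀ (d n : ℕ) (p : Fin n → E d), GP p → ∀ (x : E d) (A B : Finset (Fin n)), Circ p x A →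
    Circ p x B → A ≠ B → d + 2 ≤ (A ∪ B).card

/-- **Package INDEP.**  If S is a positive circuit at x and T is disjoint from S with
|T| + |S| ≤ d+1, then the vectors p i - x, i in T, are linearly independent modulo VV p x S.

Proof.  Suppose the sum of a i (p i - x) over T is in VV p x S, i.e. equals the sum of
b j (p j - x) over S.  With x the sum of w j p j over S, w summing to 1, this is
(sum over T of a i p i) - (sum over S of b j p j) - (sum a - sum b) (sum over S of w j p j) = 0,
an affine relation between the points of T ∪ S whose coefficients have sum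
sum a - sum b - (sum a - sum b) = 0.  By affine independence of T ∪ S (|T ∪ S| ≤ d+1) all the
coefficients are 0, in particular a i = 0 for i in T. -/
def P_INDEP : Prop :=
  ∀ (d n : ℕ) (p : Fin n → E d), GP p → ∀ (x : E d) (S T : Finset (Fin n)), Circ p x S →
    Disjoint T S → T.card + S.card ≤ d + 1 →
      LinearIndependent ℝ (fun i : T => (VV p x S).mkQ (p (i : Fin n) - x))

/-- **Package GEN.**  If the convex hulls of r pairwise disjoint sets A i of points contain m+1
affinely independent common points q 0, ..., q m, then there is a state with S i ⊆ A i and with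
dim W ≥ m.

Proof.  Let H = vectorSpan of the q j (dimension m).  For each finite set P of indices with at most
d+1 elements let D_P = vectorSpan ℝ (p '' P).  Call P bad if H is not contained in D_P.  There are
finitely many bad P, and for each the subspace H ⊓ D_P is a proper subspace of H, so (a vector space
over an infinite field is not a finite union of proper subspaces; Mathlib:
Subspace.biUnion_ne_univ_of_top_notMem or similar, or induction) there is v in H outside all the
D_P with P bad.  Let g be the centroid of the q j; for all small real t the point g + t v is in the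
convex hull of the q j (write v as a combination of the q j with coefficients summing to 0).  For
each bad P there is at most one t with g + t v in the affine span of p '' P (if t and t' were two
such values then (t - t') v would be in D_P).  So there is a small t such that x := g + t v is in no
affine span of p '' P with P bad.  (If m = 0 then H = 0, no P is bad and x = q 0.)
Now x is in the convex hull of p '' A i for all i, so by Caratheodory's theorem (Mathlib:
eq_pos_convex_span_of_mem_convexHull or convexHull_eq_union) there is S i ⊆ A i such that x is a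
convex combination of the points of S i with all weights positive and the points of S i are
affinely independent, so |S i| ≤ d+1, i.e. Circ p x (S i) (p is injective on the sets that matter by
GP; if d = 0 ... GP with d + 1 = 1 says nothing about two points, but then every convex hull is the
single point of the space: choose S i a single element).
Since x is in the affine span of p '' S i, the set S i is not bad: H ≤ D_(S i) = VV p x (S i).
So H ≤ W and m = finrank H ≤ finrank W. -/
def P_GEN : Prop :=
  ∀ (d n r : ℕ) (p : Fin n → E d), GP p → ∀ (A : Fin r → Finset (Fin n)),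
    (∀ i j, i ≠ j → Disjoint (A i) (A j)) → ∀ (m : ℕ) (q : Fin (m + 1) → E d),
      AffineIndependent ℝ q → (∀ j i, q j ∈ convexHull ℝ (p '' (A i : Set (Fin n)))) →
        ∃ (x : E d) (S : Fin r → Finset (Fin n)), State p x S ∧ (∀ i, S i ⊆ A i) ∧
          m ≤ finrank ℝ (WW p x S)

/-- **Package GEN2.**  A state can be moved to a generic one with the same sets: the sets S and the
space W stay the same and every positive circuit P at the new point has W ≤ VV p x' P.

Proof.  Let W = WW p x S.  For a set P of at most d+1 indices let D_P = vectorSpan ℝ (p '' P);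
call P bad if W is not contained in D_P.  There is v in W outside all D_P with P bad (finite union
of proper subspaces W ⊓ D_P of W).  Put x' = x + t v.  For each bad P there is at most one t with
x + t v in the affine span of p '' P.  For each j write v (an element of VV p x (S j)) as
sum of a i (p i - x) over S j; then x + t v = sum of (w i + t (a i - (sum a) w i)) p i with weights
summing to 1, positive for small t.  So for all small t the point x' = x + t v has Circ p x' (S j)
for all j, and we can choose t small and outside the finitely many exceptional values.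
VV p x' (S j) = vectorSpan (p '' S j) = VV p x (S j), so WW is unchanged.  If Circ p x' P then x' is
in the affine span of p '' P, so P is not bad: W ≤ D_P = VV p x' P. -/
def P_GEN2 : Prop :=
  ∀ (d n r : ℕ) (p : Fin n → E d), GP p → ∀ (x : E d) (S : Fin r → Finset (Fin n)),
    State p x S → ∃ x' : E d, State p x' S ∧ WW p x' S = WW p x S ∧
      ∀ P : Finset (Fin n), Circ p x' P → WW p x' S ≤ VV p x' P

/-- **Package IMP.**  In Case A there is a state with larger dimension of W (uses GEN).

Proof.  Let b, c, σ be as in CaseA, D = finrank W, w_1, ..., w_D a basis of W, and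
A j = S j ∪ {m ∈ LL S : σ m = j} (pairwise disjoint).  For every v in VV p x (S j) the point
x + t v is in the convex hull of p '' S j for all small t ≥ 0 (as in GEN2: the weights
w i + t (a i - (sum a) w i) are positive).  So for small t > 0 the points x and x + t w_k are in all
the hulls.  Also x + t b: b = v_j + sum of c m (p m - x) with v_j in VV p x (S j), m in A j \ S j;
x + t b = (weights of x + t v_j on S j) + t c m p m - t (sum c m) x, i.e. weights
w i (1 - t sum c) + t (a i - (sum a) w i) on S j and t c m on the others, nonnegative for small t,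
with sum 1.  So for one small t > 0 the D+2 points x, x + t w_1, ..., x + t w_D, x + t b are in all
the convex hulls of p '' A j, and they are affinely independent since w_1, ..., w_D, b are linearly
independent (b is not in W).  GEN with m = D + 1 gives the state. -/
def P_IMP : Prop :=
  ∀ (d n r : ℕ) (p : Fin n → E d), GP p → ∀ (x : E d) (S : Fin r → Finset (Fin n)),
    State p x S → CaseA p x S → ∃ (x' : E d) (S' : Fin r → Finset (Fin n)), State p x' S' ∧
      finrank ℝ (WW p x S) < finrank ℝ (WW p x' S')

/-- **Package FIN.**  A state with dim W ≥ k gives the conclusion of Reay's conjecture.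

Proof.  Choose linearly independent w_1, ..., w_k in W, q 0 = x, q j = x + t w_j with t > 0 small;
they are affinely independent, and they are in the convex hull of p '' S i for every i (see IMP).
Define f m = i if m is in S i, and f m = 0 (any element of Fin r, r ≥ 1) for the other m.  Then
S i ⊆ {m | f m = i}; use convexHull_mono. -/
def P_FIN : Prop :=
  ∀ (d n r k : ℕ) (p : Fin n → E d), GP p → 1 ≤ r → ∀ (x : E d) (S : Fin r → Finset (Fin n)),
    State p x S → k ≤ finrank ℝ (WW p x S) →
      ∃ f : Fin n → Fin r, ∃ q : Fin (k + 1) → E d, AffineIndependent ℝ q ∧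
        ∀ j : Fin (k + 1), ∀ i : Fin r, q j ∈ convexHull ℝ (p '' {m : Fin n | f m = i})

/-- **Package TV.**  Tverberg's theorem.

Proof (Sarkaria).  Reduce to n' = (d+1)(r-1)+1 points (the first n' ones; send the others
anywhere).  Put N = (d+1)(r-1).  Let p̂ i = (p i, 1) in ℝ^(d+1), and v_1, ..., v_r in ℝ^(r-1) the
vectors e_1, ..., e_(r-1), -(e_1 + ... + e_(r-1)): their only linear relations are the multiples of
v_1 + ... + v_r = 0.  In ℝ^(d+1) ⊗ ℝ^(r-1) (dimension N; e.g. matrices Fin (d+1) × Fin (r-1) → ℝ as
an EuclideanSpace) let W_i = {p̂ i ⊗ v_j : j}, i = 0..N; 0 is the centroid of each W_i.  Colourful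
Caratheodory (start library: Pool.Agent.TH364.Colorful.colorful in
Pool/Agent/TH364/Colorful.lean, with ι the first N indices and p an element of the last W_i) gives
j(i) and weights a_i ≥ 0 with sum 1 and the sum of a_i p̂ i ⊗ v_(j(i)) = 0.  Put
u_j = sum of a_i p̂ i over j(i) = j; then the sum of u_j ⊗ v_j = 0, so all the u_j are equal:
u_j = u.  The last coordinates: sum of a_i over j(i) = j is the same for all j, hence 1/r > 0; so the
point x = r (first d coordinates of u) is a convex combination of the p i with j(i) = j for every
j.  (The last colour class: the theorem colorful prescribes one point p; if the class of the last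
index is not included among the N classes then choose p = p̂_N ⊗ v_1, with j(N) = 1.)  The case r = 1
or the case N = 0 is direct (n ≥ 1, x = p 0). -/
def P_TV : Prop :=
  ∀ (d n r : ℕ) (p : Fin n → E d), 1 ≤ r → (d + 1) * (r - 1) + 1 ≤ n →
    ∃ f : Fin n → Fin r, ∃ x : E d, ∀ i : Fin r, x ∈ convexHull ℝ (p '' {m : Fin n | f m = i})

/-- **Package CC.**  Cone version of the colourful Caratheodory theorem (Barany): if t is in the
convex cone of each colour class and the number of classes is at least the dimension, then t is in
the cone of a rainbow set, with linearly independent support.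

Proof.  Transfer to a Euclidean space by a linear equivalence.  For a choice σ let K_σ be the cone
of the vectors C i (σ i) (finitely generated, closed; alternatively minimise over the compact sets of
coefficient vectors: closedness of finitely generated cones can be avoided by taking among all σ and
all linearly independent subfamilies, whose cones are closed as images of the closed orthant under
an injective linear map; every cone K_σ is the union of the cones of its linearly independent
subfamilies, by conic Caratheodory).  Choose σ and z in K_σ with |t - z| minimal.  Suppose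
h = t - z ≠ 0.  Since K_σ is a convex cone and z is its nearest point to t: ⟨h, z⟩ = 0 and
⟨h, C i (σ i)⟩ ≤ 0 for all i; and ⟨h, t⟩ = |h|² > 0.  Write z = sum of c_i C i (σ i), c ≥ 0 with
linearly independent support (conic Caratheodory); from ⟨h, z⟩ = 0 all i with c_i > 0 have
⟨h, C i (σ i)⟩ = 0, so the support consists of linearly independent vectors of the hyperplane
orthogonal to h; so there are at most dim - 1 of them, and some index i0 is not in the support.  As t
is a nonnegative combination of the C i0 j and ⟨h, t⟩ > 0 there is j with ⟨h, C i0 j⟩ > 0.  Let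
σ' = σ with σ'(i0) = j.  Then z and z + s C i0 j (s > 0) are in K_σ', and
|t - z - s C i0 j|² = |h|² - 2 s ⟨h, C i0 j⟩ + s² |C i0 j|² < |h|² for small s: contradiction.  So
t = z, and conic Caratheodory gives linearly independent support. -/
def P_CC : Prop :=
  ∀ (F : Type) [AddCommGroup F] [Module ℝ F] [FiniteDimensional ℝ F] (ι J : Type) [Fintype ι]
    [Fintype J] [Nonempty J] (C : ι → J → F) (t : F), finrank ℝ F ≤ Fintype.card ι →
    (∀ i, ∃ a : J → ℝ, (∀ j, 0 ≤ a j) ∧ ∑ j, a j • C i j = t) →
    ∃ (σ : ι → J) (c : ι → ℝ), (∀ i, 0 ≤ c i) ∧ ∑ i, c i • C i (σ i) = t ∧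
      LinearIndependent ℝ (fun i : {i : ι // c i ≠ 0} => C i.1 (σ i.1))

/-- **Package CA.**  (uses CC)  Let V j be subspaces, W their intersection, e_j = codim V j,
u = codim W, and let y i be |ι| ≥ (sum of e_j) - u + 1 vectors with λ(y i) > 0 for a linear
functional λ which vanishes on W.  Then there are b with λ(b) = 1, c ≥ 0 and an assignment σ of the
y i to the subspaces such that b is, modulo each V j, the sum of the c i y i with σ i = j; moreover
the y i with σ i = j and c i ≠ 0 are linearly independent modulo V j.

Proof.  Let F = Π j, (E d ⧸ V j), of dimension sum e_j, and Δ : E d → F the diagonal map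
(v ↦ (v mod V j)_j), with kernel W.  Let M = Δ(ker λ); dim M = dim ker λ - dim (ker λ ⊓ W) =
(d-1) - dim W (ι is nonempty because sum e_j ≥ u, so λ ≠ 0; and W ≤ ker λ).  So F̃ = F ⧸ M has
dimension sum e_j - u + 1 ≤ |ι|.  For i, j let C i j be the class in F̃ of the element of F with
j-coordinate y i mod V j and all other coordinates 0.  Then sum over j of C i j = [Δ(y i)].  Choose
x* with λ(x*) = 1 and t = [Δ(x*)]; y i - λ(y i) x* is in ker λ, so [Δ(y i)] = λ(y i) t and
t = sum over j of λ(y i)⁻¹ C i j.  CC gives σ, c with sum over i of c i C i (σ i) = t and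
independent support.  So the element G of F with j-coordinate (sum over σ i = j of c i y i mod V j)
differs from Δ(x*) by an element Δ(a) of M, a in ker λ: G = Δ(x* + a).  Put b = x* + a: λ(b) = 1, and
b - sum over σ i = j of c i y i is in V j for all j.  Independence: if a relation
sum over T of a_i y_i in V j holds (T the set of i with σ i = j, c i ≠ 0) then
sum of a_i C i j = 0 in F̃, so all a_i = 0. -/
def P_CA : Prop :=
  ∀ (d : ℕ) (J ι : Type) [Fintype J] [DecidableEq J] [Nonempty J] [Fintype ι]
    (V : J → Submodule ℝ (E d)) (y : ι → E d) (lam : E d →ₗ[ℝ] ℝ),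
    (⨅ j, V j) ≤ LinearMap.ker lam → (∀ i, 0 < lam (y i)) →
    ∑ j, (d - finrank ℝ (V j)) < Fintype.card ι + (d - finrank ℝ (⨅ j, V j : Submodule ℝ (E d))) →
    ∃ (b : E d) (c : ι → ℝ) (σ : ι → J), (∀ i, 0 ≤ c i) ∧ lam b = 1 ∧
      (∀ j, b - ∑ i ∈ Finset.univ.filter (fun i => σ i = j), c i • y i ∈ V j) ∧
      (∀ j, LinearIndependent ℝ
        (fun i : {i : ι // σ i = j ∧ c i ≠ 0} => (V j).mkQ (y i.1)))

/-- **Package KEY.**  (uses CA)  The same conclusion (with b not in W) without the functional λ, if
|ι| ≤ u and if for each j any at most e_j of the y i are linearly independent modulo V j.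

Proof.  For s = 1, 2, 3, ... choose y^s : ι → E d with y^s i → y i and with the y^s i linearly
independent modulo W (possible because |ι| ≤ u = dim (E d ⧸ W): choose z : ι → E d linearly
independent modulo W; then y + τ z is linearly independent modulo W for all but finitely many real
τ, because a suitable |ι| × |ι| minor of the images in E d ⧸ W is a polynomial in τ with nonzero top
coefficient; take such τ → 0.  Other arguments are fine, e.g. an explicit choice).  For each s there
is a linear functional λ_s vanishing on W with λ_s(y^s i) = 1 for all i.  CA gives b_s, c_s, σ_s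
with T_(s,j) = {i : σ_s i = j, c_s i ≠ 0} independent modulo V j with respect to y^s; so
|T_(s,j)| ≤ e_j.  b_s is not in W.  Replace b_s by its component orthogonal to W (allowed, W ≤ V j)
and rescale (b_s, c_s) so that |b_s| = 1.  Passing to a subsequence σ_s = σ and T_(s,j) = T_j do not
depend on s.  By hypothesis the y i, i in T_j, are linearly independent modulo V j, so there is
κ > 0 with |sum over T_j of a_i y_i mod V j| ≥ κ sum |a_i|, where the norm of a class modulo V j is
the norm of the component orthogonal to V j; for large s the same holds for y^s with κ/2.  So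
sum over T_j of c_s i ≤ 2/κ |b_s| = 2/κ: the c_s are bounded.  By compactness pass to a subsequence
with b_s → b, c_s → c.  Then |b| = 1, b is orthogonal to W, so b is not in W, c ≥ 0, and
b - sum over σ i = j of c i y i is in V j (closed). -/
def P_KEY : Prop :=
  ∀ (d : ℕ) (J ι : Type) [Fintype J] [DecidableEq J] [Nonempty J] [Fintype ι]
    (V : J → Submodule ℝ (E d)) (y : ι → E d),
    (∀ j, ∀ T : Finset ι, T.card ≤ d - finrank ℝ (V j) →
      LinearIndependent ℝ (fun i : T => (V j).mkQ (y (i : ι)))) →
    ∑ j, (d - finrank ℝ (V j)) < Fintype.card ι + (d - finrank ℝ (⨅ j, V j : Submodule ℝ (E d))) →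
    Fintype.card ι ≤ d - finrank ℝ (⨅ j, V j : Submodule ℝ (E d)) →
    ∃ (b : E d) (c : ι → ℝ) (σ : ι → J), b ∉ (⨅ j, V j : Submodule ℝ (E d)) ∧ (∀ i, 0 ≤ c i) ∧
      (∀ j, b - ∑ i ∈ Finset.univ.filter (fun i => σ i = j), c i • y i ∈ V j)

/-- **Package KEY2.**  (uses KEY, DIM, INDEP)  If a state is not in Case A and has at least
n + 1 = sumE - u + 1 unused points, u = d - dim W, then 2 u ≤ sumE (i.e. n ≥ u).

Proof.  Suppose sumE < 2 u.  We have u ≤ sumE (W is the intersection of the V j, codimension is
subadditive; e_j = d + 1 - |S j| = d - finrank (V j) by DIM).  Choose a subset L' of LL S with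
exactly sumE - u + 1 elements (≤ u).  Apply KEY with J = Fin r (r ≥ 1), ι = L', y m = p m - x,
V j = VV p x (S j): the independence hypothesis is INDEP (a set T of elements of L' is disjoint
from S j, and |T| ≤ e_j = d + 1 - |S j|), the two cardinality hypotheses hold.  The result, with c
extended by 0 and σ extended arbitrarily, is Case A. -/
def P_KEY2 : Prop :=
  ∀ (d n r : ℕ) (p : Fin n → E d), GP p → 1 ≤ r → ∀ (x : E d) (S : Fin r → Finset (Fin n)),
    State p x S → ¬ CaseA p x S →
      sumE d S < (LL S).card + (d - finrank ℝ (WW p x S)) →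
        2 * (d - finrank ℝ (WW p x S)) ≤ sumE d S

/-- **Package POS.**  (uses CA, DIM, INDEP)  If a state is not in Case A and has enough unused
points, then for each part i with at most d points there is a set T of exactly d + 2 - |S i| unused
points with a positive combination in VV p x (S i).

Proof.  Let V = VV p x (S i) ≠ ⊤ (dimension |S i| - 1 ≤ d - 1).  Consider the vectors
y_m = p m - x mod V in E d ⧸ V, m in LL S (LL S is nonempty since u ≤ sumE; its number is at least
sumE - u + 1 =: n + 1).  If 0 is not in the convex hull of the y_m then there is a linear functional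
on E d ⧸ V positive on all y_m (strict separation of a compact convex set from 0), i.e. a functional
λ on E d vanishing on V ≥ WW with λ(p m - x) > 0 for all m in LL S.  CA with ι = LL S,
J = Fin r and V j = VV p x (S j) gives b with λ(b) = 1, so b is not in WW, and c, σ as in Case A:
contradiction.  So 0 is in the convex hull of the y_m and by Caratheodory 0 is a convex combination
with positive weights μ of the y_m, m in T, T ⊆ LL S with the y_m, m in T, affinely independent, so
|T| ≤ dim (E d ⧸ V) + 1 = d + 2 - |S i| (DIM).  The y_m, m in T, are linearly dependent, so by INDEP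
|T| + |S i| > d + 1.  Hence |T| = d + 2 - |S i|. -/
def P_POS : Prop :=
  ∀ (d n r : ℕ) (p : Fin n → E d), GP p → 1 ≤ r → ∀ (x : E d) (S : Fin r → Finset (Fin n)),
    State p x S → ¬ CaseA p x S →
      sumE d S < (LL S).card + (d - finrank ℝ (WW p x S)) →
        ∀ i, (S i).card ≤ d → ∃ T : Finset (Fin n), T ⊆ LL S ∧ T.card + (S i).card = d + 2 ∧
          ∃ μ : Fin n → ℝ, (∀ m ∈ T, 0 < μ m) ∧ ∑ m ∈ T, μ m • (p m - x) ∈ VV p x (S i)

/-- **Package ROT.**  (uses DIM, INDEP)  Rotation of a positive relation modulo V = VV p x S to a
new point y.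

Proof.  Let e = d + 1 - |S| = dim (E d ⧸ V) (DIM), |T| = e + 1.  Write a bar for classes modulo V,
and v_m = p m - x.  By INDEP any e of the vectors v̄_m, m in T ∪ {y}, are linearly independent.  So
for a fixed t0 in T the e vectors v̄_m, m in T \ t0, form a basis of E d ⧸ V; write
- v̄_y = sum over T of α_m v̄_m with α_(t0) = 0; adding a multiple of the relation
sum μ_m v̄_m = 0 we may replace α by α - s μ where s = min over T of α_m / μ_m: so α ≥ 0 on T and
α_t = 0 for some t in T.  If α_m = 0 for a further m in T, m ≠ t, then y and T \ {t, m} (together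
e elements) give a nontrivial relation v̄_y + sum α v̄ = 0: contradiction to INDEP.  So α > 0 on
T \ t.  Put ν_y = 1, ν_m = α_m on T \ t. -/
def P_ROT : Prop :=
  ∀ (d n : ℕ) (p : Fin n → E d), GP p → ∀ (x : E d) (S T : Finset (Fin n)) (μ : Fin n → ℝ)
    (y : Fin n), Circ p x S → S.card ≤ d → Disjoint T S → T.card + S.card = d + 2 →
    (∀ m ∈ T, 0 < μ m) → ∑ m ∈ T, μ m • (p m - x) ∈ VV p x S → y ∉ S → y ∉ T →
      ∃ t ∈ T, ∃ ν : Fin n → ℝ, (∀ m ∈ insert y (T.erase t), 0 < ν m) ∧
        ∑ m ∈ insert y (T.erase t), ν m • (p m - x) ∈ VV p x S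

/-- **Package EXCH.**  A positive relation modulo VV p x S gives a new positive circuit
(S \ Z) ∪ T at x with Z nonempty.

Proof.  Let β be the weights of the circuit S: β > 0 on S, sum β = 1, sum of β_z (p z - x) = 0.
Write the sum of μ_m (p m - x) over T as the sum of γ_z (p z - x) over S.  Let
θ = max over S of γ_z / β_z and α_z = θ β_z - γ_z ≥ 0 on S, with nonempty zero set Z ⊆ S.  Then
sum over T of μ_m (p m - x) + sum over S of α_z (p z - x) = 0.  The total weight A =
sum of μ over T + sum of α over S is positive (T is nonempty since |T| + |S| = d + 2 and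
|S| ≤ d + 1).  Dividing by A: x is the convex combination of the points of (S \ Z) ∪ T with positive
weights, and |(S \ Z) ∪ T| ≤ d + 1. -/
def P_EXCH : Prop :=
  ∀ (d n : ℕ) (p : Fin n → E d) (x : E d) (S T : Finset (Fin n)) (μ : Fin n → ℝ),
    Circ p x S → Disjoint T S → T.card + S.card = d + 2 →
    (∀ m ∈ T, 0 < μ m) → ∑ m ∈ T, μ m • (p m - x) ∈ VV p x S →
      ∃ Z : Finset (Fin n), Z ⊆ S ∧ Z.Nonempty ∧ Circ p x ((S \ Z) ∪ T)

/-- **Package DIMC.**  (uses DIM, SPAN, CIRCU)  The dimension count for three circuits.

Here |T| + |S| = d + 2, T' = (T \ t) ∪ {y} with t in T and y not in S ∪ T, P = (S \ Z) ∪ T and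
P' = (S \ Z') ∪ T' are positive circuits with Z, Z' ⊆ S, and U is a subspace contained in the
spans of S, P and P'.

Proof.  |P| = d + 2 - |Z|, |P'| = d + 2 - |Z'|.  P ≠ P' (y is in P' only).  By CIRCU
|P ∪ P'| ≥ d + 2, and |P ∪ P'| = |S \ (Z ∩ Z')| + |T ∪ {y}| = |S| - |Z ∩ Z'| + |T| + 1 =
d + 3 - |Z ∩ Z'|, so |Z ∩ Z'| ≤ 1.  VV S ⊔ VV P = VV (S ∪ P) ⊇ VV (S ∪ T) = ⊤ by SPAN (d + 2
points), so dim (VV S ⊓ VV P) = dim VV S + dim VV P - d.  VV S ⊓ VV P contains VV (S \ Z), so
(VV S ⊓ VV P) ⊔ VV P' contains VV ((S \ Z) ∪ (S \ Z') ∪ T') = VV ((S \ (Z ∩ Z')) ∪ T'), a set with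
|S| - |Z ∩ Z'| + |T'| = d + 2 - |Z ∩ Z'| ≥ d + 1 points; by SPAN it is ⊤.  So
dim (VV S ⊓ VV P ⊓ VV P') = dim VV S + dim VV P + dim VV P' - 2 d
= (|S| - 1) + (d + 1 - |Z|) + (d + 1 - |Z'|) - 2 d = |S| + 1 - |Z| - |Z'| (DIM), and it contains U. -/
def P_DIMC : Prop :=
  ∀ (d n : ℕ) (p : Fin n → E d), GP p → ∀ (x : E d) (S T Z Z' : Finset (Fin n)) (t y : Fin n)
    (U : Submodule ℝ (E d)), Circ p x S → Disjoint T S → T.card + S.card = d + 2 → t ∈ T → y ∉ S →
    y ∉ T → Z ⊆ S → Z' ⊆ S → Circ p x ((S \ Z) ∪ T) →
    Circ p x ((S \ Z') ∪ insert y (T.erase t)) → U ≤ VV p x S → U ≤ VV p x ((S \ Z) ∪ T) →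
    U ≤ VV p x ((S \ Z') ∪ insert y (T.erase t)) →
      finrank ℝ U + Z.card + Z'.card ≤ S.card + 1

/-- **Package ROOM.**  (uses DIM, SPAN, CIRCU)  If 2 u ≤ sumE and |S i| ≤ d then
u ≥ e_i + 1, where u = d - dim W and e_i = d + 1 - |S i|.

Proof.  V_i = VV p x (S i) has codimension e_i (DIM) and contains W, so e_i ≤ u.  Suppose
e_i = u (≥ 1).  Then W = V_i.  As sumE ≥ 2 u > e_i there is j ≠ i with e_j ≥ 1, so
V_j = VV p x (S j) ≠ ⊤ (DIM) and V_j ≥ W = V_i, so V_i ⊔ V_j = V_j ≠ ⊤.  But V_i ⊔ V_j =
VV p x (S i ∪ S j), and |S i ∪ S j| ≥ d + 2 by CIRCU (S i ≠ S j since they are disjoint and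
nonempty), so it is ⊤ by SPAN: contradiction. -/
def P_ROOM : Prop :=
  ∀ (d n r : ℕ) (p : Fin n → E d), GP p → ∀ (x : E d) (S : Fin r → Finset (Fin n)),
    State p x S → 2 * (d - finrank ℝ (WW p x S)) ≤ sumE d S →
      ∀ i, (S i).card ≤ d → d + 2 ≤ (d - finrank ℝ (WW p x S)) + (S i).card

/-- **Package TIE.**  (uses POS, ROT, EXCH, DIMC)  Under the extremality hypotheses
3 e_i ≤ u for the parts with at most d points.

Hypotheses: the state is not in Case A; enough unused points; at least d + 3 - |S i| unused
points; every positive circuit P at x which is disjoint from the other parts has at most |S i|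
points; W is contained in the span of every positive circuit at x.

Proof.  POS gives T ⊆ LL S, |T| + |S i| = d + 2, with a positive relation μ modulo VV p x (S i).
There is y in LL S \ T (|LL S| ≥ d + 3 - |S i| = |T| + 1).  ROT gives t in T and a positive relation
for T' = (T \ t) ∪ {y}; |T'| = |T|.  EXCH gives Z and Z' ⊆ S i, nonempty, such that
P = (S i \ Z) ∪ T and P' = (S i \ Z') ∪ T' are positive circuits at x; they are disjoint from the
other S j (T, T' ⊆ LL S).  So |P| = d + 2 - |Z| ≤ |S i| and the same for P':
|Z|, |Z'| ≥ d + 2 - |S i|.  DIMC with U = WW p x S gives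
dim W + 2 (d + 2 - |S i|) ≤ dim W + |Z| + |Z'| ≤ |S i| + 1, that is
dim W + 3 (d + 1 - |S i|) ≤ d. -/
def P_TIE : Prop :=
  ∀ (d n r : ℕ) (p : Fin n → E d), GP p → 1 ≤ r → ∀ (x : E d) (S : Fin r → Finset (Fin n)),
    State p x S → ¬ CaseA p x S →
    sumE d S < (LL S).card + (d - finrank ℝ (WW p x S)) → ∀ i, (S i).card ≤ d →
    d + 3 ≤ (LL S).card + (S i).card →
    (∀ P : Finset (Fin n), Circ p x P → (∀ j, j ≠ i → Disjoint P (S j)) →
      P.card ≤ (S i).card) →
    (∀ P : Finset (Fin n), Circ p x P → WW p x S ≤ VV p x P) →
      finrank ℝ (WW p x S) + 3 * (d + 1 - (S i).card) ≤ d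

/-- **Package ASM** (the theorem: Reay's conjecture for r ≤ 5; uses all the others).

Proof.  TV (the first (d+1)(r-1)+1 points suffice) gives f and x in all the convex hulls; GEN with
m = 0 gives a state.  So states exist.  Among all states (x, S) (dim W ≤ d, total size ≤ n) choose
one with D = dim W maximal, and among these one with the sum of the |S j| maximal.  If D ≥ k then
FIN finishes the proof.  Suppose D < k ≤ d; then u = d - D ≥ 1.  Replace x by the point of GEN2 (the
same S and W).  By IMP and maximality of D the state is not in Case A.  The number of unused points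
is n - sum |S j| = (d+1)(r-1) + 1 + k - r (d+1) + sumE = sumE - d + k ≥ sumE - d + D + 1 =
sumE - u + 1 (here (d + 1 - |S j|) + |S j| = d + 1).  So the hypothesis
sumE < |LL S| + u holds.  KEY2: 2 u ≤ sumE.  For a part i with |S i| ≤ d: ROOM gives
u ≥ e_i + 1, e_i = d + 1 - |S i|; so |LL S| ≥ sumE - u + 1 ≥ u + 1 ≥ e_i + 2, which is the
hypothesis d + 3 ≤ |LL S| + |S i| of TIE.  The extremality hypothesis of TIE: if P is a positive
circuit at x disjoint from the S j with j ≠ i, then S with S i replaced by P is a state, its W
contains the old W (W ≤ VV P by GEN2), so its dimension is D by maximality, hence its total size is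
at most that of S: |P| ≤ |S i|.  TIE: 3 e_i ≤ u for all i with e_i ≥ 1, and trivially if
e_i = 0.  Sum over i: 3 sumE ≤ r u ≤ 5 u, but 3 sumE ≥ 6 u: contradiction to u ≥ 1. -/
def P_ASM : Prop :=
  ∀ (d r k n : ℕ), 1 ≤ r → r ≤ 5 → k ≤ d → n = (d + 1) * (r - 1) + 1 + k →
    ∀ p : Fin n → EuclideanSpace ℝ (Fin d),
      (∀ s : Finset (Fin n), s.card ≤ d + 1 →
        AffineIndependent ℝ (fun i : s => p (i : Fin n))) →
      ∃ f : Fin n → Fin r, ∃ q : Fin (k + 1) → EuclideanSpace ℝ (Fin d),
        AffineIndependent ℝ q ∧
        ∀ j : Fin (k + 1), ∀ i : Fin r,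
          q j ∈ convexHull ℝ (p '' {m : Fin n | f m = i})

end Pool.Agent.T2H81.RY
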