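import Pool.Agent.T2H81.RY.Stm

set_option autoImplicit false

open Module
open scoped BigOperators

namespace Pool.Agent.T2H81.RY

namespace CAaux

/-- the diagonal map -/
noncomputable def Dl {d : ℕ} {J : Type} (V : J → Submodule ℝ (E d)) :
    E d →ₗ[ℝ] ((j : J) → E d ⧸ V j) :=
  LinearMap.pi fun j => (V j).mkQ

lemma Dl_apply {d : ℕ} {J : Type} (V : J → Submodule ℝ (E d)) (v : E d) (j : J) :
    Dl V v j = (V j).mkQ v := rfl

lemma ker_Dl {d : ℕ} {J : Type} (V : J → Submodule ℝ (E d)) :
    LinearMap.ker (Dl V) = ⨅ j, V j := by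
  ext v
  rw [LinearMap.mem_ker, Submodule.mem_iInf, funext_iff]
  refine forall_congr' fun j => ?_
  rw [Dl_apply, Submodule.mkQ_apply, Pi.zero_apply, Submodule.Quotient.mk_eq_zero]

lemma finrank_F {d : ℕ} {J : Type} [Fintype J] (V : J → Submodule ℝ (E d)) :
    finrank ℝ ((j : J) → E d ⧸ V j) = ∑ j, (d - finrank ℝ (V j)) := by
  rw [Module.finrank_pi_fintype]
  refine Finset.sum_congr rfl fun j _ => ?_
  have h := Submodule.finrank_quotient_add_finrank (V j)
  rw [finrank_euclideanSpace_fin] at h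
  omega

end CAaux

open CAaux in
theorem T_CA (hCC : P_CC) : P_CA := by
  classical
  intro d J ι _ _ _ _ V y lam hlam hy hsum
  set W : Submodule ℝ (E d) := ⨅ j, V j with hW
  have hfd : finrank ℝ (E d) = d := finrank_euclideanSpace_fin
  have hWd : finrank ℝ W ≤ d := by
    have := Submodule.finrank_le W
    rwa [hfd] at this
  -- `u ≤ sum e_j`, so `ι` is nonempty
  have hu : d - finrank ℝ W ≤ ∑ j, (d - finrank ℝ (V j)) := by
    have h1 := LinearMap.finrank_range_add_finrank_ker (Dl V)
    rw [ker_Dl, hfd] at h1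
    have h2 := Submodule.finrank_le (LinearMap.range (Dl V))
    rw [finrank_F] at h2
    rw [hW]
    omega
  have hne : Nonempty ι := by
    rw [← Fintype.card_pos_iff]
    omega
  obtain ⟨i₀⟩ := hne
  set xs : E d := (lam (y i₀))⁻¹ • y i₀ with hxs
  have hlx : lam xs = 1 := by
    rw [hxs, map_smul, smul_eq_mul, inv_mul_cancel₀ (hy i₀).ne']
  set M : Submodule ℝ ((j : J) → E d ⧸ V j) := (LinearMap.ker lam).map (Dl V) with hM
  have hker : finrank ℝ (LinearMap.ker lam) + 1 = d := by
    have h1 := LinearMap.finrank_range_add_finrank_ker lam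
    have h2 : finrank ℝ (LinearMap.range lam) = 1 := by
      have h3 : LinearMap.range lam = ⊤ := by
        rw [LinearMap.range_eq_top]
        intro r
        exact ⟨r • xs, by rw [map_smul, hlx, smul_eq_mul, mul_one]⟩
      rw [h3, finrank_top, finrank_self]
    rw [h2, hfd] at h1
    omega
  have hMdim : d ≤ finrank ℝ M + finrank ℝ W + 1 := by
    have h1 := LinearMap.finrank_range_add_finrank_ker ((Dl V).domRestrict (LinearMap.ker lam))
    have h2 : LinearMap.range ((Dl V).domRestrict (LinearMap.ker lam)) = M := by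
      rw [hM, LinearMap.range_domRestrict]
    rw [h2] at h1
    have h3 : finrank ℝ (LinearMap.ker ((Dl V).domRestrict (LinearMap.ker lam))) ≤
        finrank ℝ W := by
      have h4 : ∀ v ∈ LinearMap.ker ((Dl V).domRestrict (LinearMap.ker lam)),
          ((LinearMap.ker lam).subtype v : E d) ∈ W := by
        intro v hv
        rw [hW, ← ker_Dl]
        exact hv
      let g : LinearMap.ker ((Dl V).domRestrict (LinearMap.ker lam)) →ₗ[ℝ] W :=
        (((LinearMap.ker lam).subtype).domRestrict _).codRestrict W (fun v => h4 v.1 v.2)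
      apply LinearMap.finrank_le_finrank_of_injective (f := g)
      intro a b hab
      have h5 : ((LinearMap.ker lam).subtype a.1 : E d) = (LinearMap.ker lam).subtype b.1 :=
        congrArg (fun z : W => (z : E d)) hab
      exact Subtype.ext (Subtype.ext h5)
    omega
  have hFt : finrank ℝ (((j : J) → E d ⧸ V j) ⧸ M) ≤ Fintype.card ι := by
    have h1 := Submodule.finrank_quotient_add_finrank M
    rw [finrank_F] at h1
    omega
  let S : (j : J) → (E d ⧸ V j) →ₗ[ℝ] ((j : J) → E d ⧸ V j) :=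
    fun j => LinearMap.single ℝ (fun j => E d ⧸ V j) j
  have hS : ∀ k j (v : E d), S k ((V k).mkQ v) j = if k = j then (V j).mkQ v else 0 := by
    intro k j v
    show (Pi.single k ((V k).mkQ v) : (j : J) → E d ⧸ V j) j = _
    split_ifs with h
    · subst h
      rw [Pi.single_eq_same]
    · rw [Pi.single_eq_of_ne (Ne.symm h)]
  obtain ⟨σ, c, hc0, hct, hli⟩ := hCC (((j : J) → E d ⧸ V j) ⧸ M) ι J
    (fun i j => M.mkQ (S j ((V j).mkQ (y i)))) (M.mkQ (Dl V xs)) hFt (by
      intro i
      refine ⟨fun _ => (lam (y i))⁻¹, fun _ => (inv_pos.mpr (hy i)).le, ?_⟩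
      rw [← Finset.smul_sum, ← map_sum, ← map_smul, ← sub_eq_zero, ← map_sub]
      rw [Submodule.mkQ_apply, Submodule.Quotient.mk_eq_zero, hM, Submodule.mem_map]
      refine ⟨(lam (y i))⁻¹ • y i - xs, ?_, ?_⟩
      · rw [LinearMap.mem_ker, map_sub, hlx, map_smul, smul_eq_mul,
          inv_mul_cancel₀ (hy i).ne', sub_self]
      · rw [map_sub, map_smul]
        congr 2
        funext j
        rw [Dl_apply, Finset.sum_apply]
        simp_rw [hS]
        rw [Finset.sum_ite_eq' Finset.univ j, if_pos (Finset.mem_univ j)])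
  -- the element of the sum
  have h1 : M.mkQ (∑ i, c i • S (σ i) ((V (σ i)).mkQ (y i)) - Dl V xs) = 0 := by
    rw [map_sub, map_sum, sub_eq_zero, ← hct]
    refine Finset.sum_congr rfl fun i _ => ?_
    rw [map_smul]
  rw [Submodule.mkQ_apply, Submodule.Quotient.mk_eq_zero, hM, Submodule.mem_map] at h1
  obtain ⟨a, ha, hDa⟩ := h1
  refine ⟨xs + a, c, σ, hc0, ?_, ?_, ?_⟩
  · rw [map_add, hlx, LinearMap.mem_ker.mp ha, add_zero]
  · intro j
    rw [← Submodule.Quotient.mk_eq_zero, ← Submodule.mkQ_apply, map_sub, sub_eq_zero, map_add,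
      ← Dl_apply, ← Dl_apply, hDa, Pi.sub_apply, add_sub_cancel, Finset.sum_apply, map_sum,
      Finset.sum_filter]
    refine Finset.sum_congr rfl fun i _ => ?_
    rw [Pi.smul_apply, hS]
    split_ifs
    · rw [map_smul]
    · rw [smul_zero]
  · intro j
    have h2 := hli.comp (fun i : {i : ι // σ i = j ∧ c i ≠ 0} =>
      (⟨i.1, i.2.2⟩ : {i : ι // c i ≠ 0})) (by
        intro a b hab
        exact Subtype.ext (congrArg (fun z : {i : ι // c i ≠ 0} => z.1) hab))
    apply LinearIndependent.of_comp (M.mkQ ∘ₗ S j)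
    have e : (⇑(M.mkQ ∘ₗ S j) ∘ fun i : {i : ι // σ i = j ∧ c i ≠ 0} => (V j).mkQ (y i.1)) =
        (fun i : {i : ι // c i ≠ 0} => M.mkQ ((S (σ i.1)) ((V (σ i.1)).mkQ (y i.1)))) ∘
          (fun i : {i : ι // σ i = j ∧ c i ≠ 0} => (⟨i.1, i.2.2⟩ : {i : ι // c i ≠ 0})) := by
      funext i
      obtain ⟨i, hi, hi'⟩ := i
      subst hi
      rfl
    rw [e]
    exact h2

end Pool.Agent.T2H81.RY
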